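import Pool.Graph.R_seed8.H630VC.Rounds

/-! # The second moment argument with different probabilities -/

open scoped Classical
open Finset

namespace H50TW

variable {W : Type*} [Fintype W]

/-- samples that vanish on `A` -/
noncomputable def Ev (q : W → ℕ) (A : Finset W) : Finset (∀ w, Fin (q w)) :=
  univ.filter fun τ => ∀ v ∈ A, (τ v : ℕ) = 0

theorem card_Ev (q : W → ℕ) (hq : ∀ w, 1 ≤ q w) (A : Finset W) :
    (Ev q A).card * ∏ v ∈ A, q v = ∏ v, q v := by
  have h1 : Ev q A = Fintype.piFinset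
      (fun v => if v ∈ A then ({⟨0, hq v⟩} : Finset (Fin (q v))) else univ) := by
    ext τ
    simp only [Ev, mem_filter, mem_univ, true_and, Fintype.mem_piFinset]
    refine forall_congr' fun v => ?_
    by_cases hv : v ∈ A
    · simp only [hv, true_imp_iff, if_true, mem_singleton, Fin.ext_iff]
    · simp [hv]
  have h2 : (Ev q A).card = ∏ v : W, (if v ∈ A then 1 else q v) := by
    rw [h1, Fintype.card_piFinset]
    refine Finset.prod_congr rfl fun v _ => ?_
    by_cases hv : v ∈ A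
    · simp [hv]
    · simp [hv]
  have h3 : ∏ v ∈ A, q v = ∏ v : W, (if v ∈ A then q v else 1) := by
    rw [Finset.prod_ite_mem, univ_inter]
  rw [h2, h3, ← Finset.prod_mul_distrib]
  refine Finset.prod_congr rfl fun v _ => ?_
  by_cases hv : v ∈ A <;> simp [hv]

theorem one_round {ι : Type*} (q : W → ℕ) (hq : ∀ w, 1 ≤ q w) (𝓖 : Finset ι)
    (S : ι → Finset W) (l : ℕ) (hl : 1 ≤ l) (hne : 𝓖.Nonempty)
    (hcard : ∀ i ∈ 𝓖, (S i).card ≤ l)
    (hspread : ∀ Y : Finset W,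
      (𝓖.filter fun i => Y ⊆ S i).card * ∏ v ∈ Y, (4 * l * q v) ≤ 𝓖.card) :
    (univ.filter fun τ : (∀ w, Fin (q w)) => ∀ i ∈ 𝓖, ¬ ∀ v ∈ S i, (τ v : ℕ) = 0).card * 2
      ≤ ∏ v, q v := by
  have hl0 : (0 : ℝ) < l := by exact_mod_cast hl
  have hq0 : ∀ w, (0 : ℝ) < q w := fun w => by exact_mod_cast hq w
  set N : ℝ := ∏ v, (q v : ℝ) with hN
  have hN0 : 0 < N := prod_pos fun v _ => hq0 v
  set g : ℝ := (𝓖.card : ℝ) with hg
  have hg0 : 0 < g := by
    rw [hg]
    exact_mod_cast hne.card_pos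
  let pr : Finset W → ℝ := fun A => ∏ v ∈ A, (q v : ℝ)
  have hpr : ∀ A, 0 < pr A := fun A => prod_pos fun v _ => hq0 v
  have hEv : ∀ A : Finset W, ((Ev q A).card : ℝ) = N / pr A := by
    intro A
    rw [eq_div_iff (hpr A).ne']
    have := card_Ev q hq A
    simp only [pr, hN]
    exact_mod_cast this
  have hcount : ∀ A : Finset W,
      ∑ τ : (∀ w, Fin (q w)), (if (∀ v ∈ A, (τ v : ℕ) = 0) then (1 : ℝ) else 0) =
        N / pr A := by
    intro A
    rw [← hEv A, Finset.sum_boole]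
    rfl
  let X : (∀ w, Fin (q w)) → ℝ := fun τ =>
    ∑ i ∈ 𝓖, pr (S i) * if (∀ v ∈ S i, (τ v : ℕ) = 0) then (1 : ℝ) else 0
  have hX1 : ∑ τ, X τ = g * N := by
    simp only [X]
    rw [Finset.sum_comm, Finset.sum_congr rfl (g := fun _ => N)]
    · rw [sum_const, nsmul_eq_mul]
    · intro i _
      rw [← mul_sum, hcount]
      field_simp [(hpr (S i)).ne']
  have hX2 : ∑ τ, X τ ^ 2 ≤ 3 / 2 * g * g * N := by
    have e1 : ∀ τ, X τ ^ 2 = ∑ i ∈ 𝓖, ∑ i' ∈ 𝓖, pr (S i) * pr (S i') *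
        if (∀ v ∈ S i ∪ S i', (τ v : ℕ) = 0) then (1 : ℝ) else 0 := by
      intro τ
      simp only [X]
      rw [pow_two, Finset.sum_mul_sum]
      refine sum_congr rfl fun i _ => sum_congr rfl fun i' _ => ?_
      by_cases h1 : ∀ v ∈ S i, (τ v : ℕ) = 0
      · by_cases h2 : ∀ v ∈ S i', (τ v : ℕ) = 0
        · rw [if_pos h1, if_pos h2, if_pos]
          · ring
          intro v hv
          rcases mem_union.1 hv with hv | hv
          · exact h1 v hv
          · exact h2 v hv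
        · rw [if_neg h2, mul_zero, mul_zero, if_neg, mul_zero]
          exact fun h => h2 fun v hv => h v (mem_union_right _ hv)
      · rw [if_neg h1, mul_zero, zero_mul, if_neg, mul_zero]
        exact fun h => h1 fun v hv => h v (mem_union_left _ hv)
    simp_rw [e1]
    rw [Finset.sum_comm]
    have e2 : ∀ i ∈ 𝓖, ∑ τ : (∀ w, Fin (q w)), ∑ i' ∈ 𝓖, (pr (S i) * pr (S i') *
        if (∀ v ∈ S i ∪ S i', (τ v : ℕ) = 0) then (1 : ℝ) else 0) ≤
        3 / 2 * g * N := by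
      intro i hi
      rw [Finset.sum_comm]
      have e3 : ∀ i' ∈ 𝓖, ∑ τ : (∀ w, Fin (q w)), (pr (S i) * pr (S i') *
          if (∀ v ∈ S i ∪ S i', (τ v : ℕ) = 0) then (1 : ℝ) else 0) =
          pr (S i ∩ S i') * N := by
        intro i' _
        rw [← mul_sum, hcount]
        have h5 : pr (S i ∪ S i') * pr (S i ∩ S i') = pr (S i) * pr (S i') :=
          prod_union_inter
        rw [← h5]
        field_simp [(hpr (S i ∪ S i')).ne']
      rw [Finset.sum_congr rfl e3, ← Finset.sum_mul]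
      refine mul_le_mul_of_nonneg_right ?_ hN0.le
      have e4 : ∀ i' ∈ 𝓖, pr (S i ∩ S i') ≤
          ∑ Y ∈ (S i).powerset, if Y ⊆ S i' then pr Y else 0 := by
        intro i' _
        have h7 : ∏ v ∈ S i ∩ S i', (1 + (q v : ℝ)) = ∑ Y ∈ (S i ∩ S i').powerset, pr Y :=
          prod_one_add _
        have h8 : pr (S i ∩ S i') ≤ ∏ v ∈ S i ∩ S i', (1 + (q v : ℝ)) :=
          prod_le_prod (fun v _ => (hq0 v).le) fun v _ => by linarith
        refine h8.trans ?_
        rw [h7, ← Finset.sum_filter]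
        refine le_of_eq (Finset.sum_congr ?_ fun _ _ => rfl)
        ext Y
        simp only [mem_powerset, mem_filter, subset_inter_iff]
      refine (Finset.sum_le_sum e4).trans ?_
      rw [Finset.sum_comm]
      have e5 : ∀ Y ∈ (S i).powerset, ∑ i' ∈ 𝓖, (if Y ⊆ S i' then pr Y else 0) ≤
          g * (1 / (4 * (l : ℝ))) ^ Y.card := by
        intro Y _
        rw [← Finset.sum_filter, sum_const, nsmul_eq_mul]
        have h9 := hspread Y
        have h10 : ((𝓖.filter fun i => Y ⊆ S i).card : ℝ) * ((4 * l) ^ Y.card * pr Y) ≤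
            ((𝓖.card : ℕ) : ℝ) := by
          rw [prod_mul_distrib, prod_const] at h9
          simp only [pr]
          exact_mod_cast h9
        rw [one_div, inv_pow, ← div_eq_mul_inv, le_div_iff₀ (by positivity)]
        calc _ = ((𝓖.filter fun i => Y ⊆ S i).card : ℝ) * ((4 * l) ^ Y.card * pr Y) := by ring
          _ ≤ g := h10
      refine (Finset.sum_le_sum e5).trans ?_
      rw [← Finset.mul_sum]
      have h11 := Finset.sum_pow_mul_eq_add_pow (1 / (4 * (l : ℝ))) 1 (S i)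
      simp only [one_pow, mul_one] at h11
      rw [h11, add_comm]
      have := H630VC.RoundsAux.pow_bound l (S i).card hl (hcard i hi)
      nlinarith
    refine (Finset.sum_le_sum e2).trans (le_of_eq ?_)
    rw [sum_const, nsmul_eq_mul]
    ring
  -- Cauchy-Schwarz
  set G : Finset (∀ w, Fin (q w)) :=
    univ.filter fun τ => ¬ ∀ i ∈ 𝓖, ¬ ∀ v ∈ S i, (τ v : ℕ) = 0 with hG
  have hX0 : ∀ τ, τ ∉ G → X τ = 0 := by
    intro τ hτ
    rw [hG, mem_filter, not_and, not_not] at hτ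
    have h := hτ (mem_univ _)
    exact Finset.sum_eq_zero fun i hi => by rw [if_neg (h i hi), mul_zero]
  have hsum : ∑ τ, X τ = ∑ τ ∈ G, X τ :=
    (Finset.sum_subset (subset_univ G) fun τ _ hτ => hX0 τ hτ).symm
  have hCS : (∑ τ, X τ) ^ 2 ≤ (G.card : ℝ) * ∑ τ, X τ ^ 2 := by
    rw [hsum]
    refine (sq_sum_le_card_mul_sum_sq).trans ?_
    refine mul_le_mul_of_nonneg_left ?_ (by positivity)
    exact Finset.sum_le_sum_of_subset_of_nonneg (subset_univ _) fun _ _ _ => sq_nonneg _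
  have hmain : N ≤ 3 / 2 * (G.card : ℝ) := by
    have h1 : (∑ τ, X τ) ^ 2 ≤ (G.card : ℝ) * (3 / 2 * g * g * N) :=
      hCS.trans (mul_le_mul_of_nonneg_left hX2 (by positivity))
    rw [hX1] at h1
    have h2 : (g * N) ^ 2 = N * (g * g * N) := by ring
    have h3 : (G.card : ℝ) * (3 / 2 * g * g * N) = (3 / 2 * (G.card : ℝ)) * (g * g * N) := by
      ring
    rw [h2, h3] at h1
    exact le_of_mul_le_mul_right h1 (by positivity)
  have htot : (univ.filter fun τ : (∀ w, Fin (q w)) =>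
      ∀ i ∈ 𝓖, ¬ ∀ v ∈ S i, (τ v : ℕ) = 0).card + G.card = ∏ v, q v := by
    rw [hG, Finset.card_filter_add_card_filter_not, card_univ, Fintype.card_pi]
    simp
  have htot' : ((univ.filter fun τ : (∀ w, Fin (q w)) =>
      ∀ i ∈ 𝓖, ¬ ∀ v ∈ S i, (τ v : ℕ) = 0).card : ℝ) + G.card = N := by
    rw [hN]
    exact_mod_cast htot
  have hfin : ((univ.filter fun τ : (∀ w, Fin (q w)) =>
      ∀ i ∈ 𝓖, ¬ ∀ v ∈ S i, (τ v : ℕ) = 0).card : ℝ) * 2 ≤ N := by
    linarith
  rw [hN] at hfin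
  exact_mod_cast hfin

theorem all_rounds {ι : Type*} (q : W → ℕ) (hq : ∀ w, 1 ≤ q w) (𝓖 : Finset ι)
    (S : ι → Finset W) (l m : ℕ) (hl : 1 ≤ l) (hne : 𝓖.Nonempty)
    (hcard : ∀ i ∈ 𝓖, (S i).card ≤ l)
    (hspread : ∀ Y : Finset W,
      (𝓖.filter fun i => Y ⊆ S i).card * ∏ v ∈ Y, (4 * l * q v) ≤ 𝓖.card) :
    (univ.filter fun ω : Fin m → (∀ w, Fin (q w)) =>
      ∀ i ∈ 𝓖, ¬ ∀ v ∈ S i, ∃ j, (ω j v : ℕ) = 0).card * 2 ^ m ≤ (∏ v, q v) ^ m := by
  have h1 := one_round q hq 𝓖 S l hl hne hcard hspread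
  set B := univ.filter fun τ : (∀ w, Fin (q w)) => ∀ i ∈ 𝓖, ¬ ∀ v ∈ S i, (τ v : ℕ) = 0 with hB
  have h2 : (univ.filter fun ω : Fin m → (∀ w, Fin (q w)) =>
      ∀ i ∈ 𝓖, ¬ ∀ v ∈ S i, ∃ j, (ω j v : ℕ) = 0) ⊆
      Fintype.piFinset (fun _ : Fin m => B) := by
    intro ω hω
    rw [mem_filter] at hω
    rw [Fintype.mem_piFinset]
    intro j
    rw [hB, mem_filter]
    exact ⟨mem_univ _, fun i hi h => hω.2 i hi fun v hv => ⟨j, h v hv⟩⟩
  have h3 := Finset.card_le_card h2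
  rw [Fintype.card_piFinset_const] at h3
  calc _ ≤ B.card ^ m * 2 ^ m := Nat.mul_le_mul_right _ h3
    _ = (B.card * 2) ^ m := (mul_pow _ _ _).symm
    _ ≤ (∏ v, q v) ^ m := Nat.pow_le_pow_left h1 m

end H50TW
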