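import Pool.Agent.H50.TW.Round

/-! # Definitions for the second moment argument -/

open scoped Classical
open Finset

namespace H50TW

variable {W : Type*} [Fintype W]

/-- no set of items is contained in too many of the sets -/
def Spread {κ : Type*} (q : W → ℕ) (l : ℕ) (𝓖 : Finset κ) (S : κ → Finset W) : Prop :=
  ∀ Y : Finset W, (𝓖.filter fun i => Y ⊆ S i).card * ∏ v ∈ Y, (4 * l * q v) ≤ 𝓖.card

theorem Spread.of {κ : Type*} {q : W → ℕ} {l : ℕ} {𝓖 : Finset κ} {S : κ → Finset W}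
    (h : ∀ (Y : Finset W) (H : Finset κ), (∀ i ∈ H, i ∈ 𝓖 ∧ Y ⊆ S i) →
      H.card * ∏ v ∈ Y, (4 * l * q v) ≤ 𝓖.card) : Spread q l 𝓖 S :=
  fun Y => h Y _ fun _ hi => mem_filter.1 hi

/-- the bad samples -/
noncomputable def badG {κ : Type*} (q : W → ℕ) (m : ℕ) (𝓖 : Finset κ) (S : κ → Finset W) :
    Finset (Fin m → (∀ w, Fin (q w))) :=
  univ.filter fun ω => ∀ i ∈ 𝓖, ¬ ∀ v ∈ S i, ∃ j, (ω j v : ℕ) = 0

theorem mem_badG {κ : Type*} {q : W → ℕ} {m : ℕ} {𝓖 : Finset κ} {S : κ → Finset W}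
    {ω : Fin m → (∀ w, Fin (q w))} :
    ω ∈ badG q m 𝓖 S ↔ ∀ i ∈ 𝓖, ¬ ∀ v ∈ S i, ∃ j, (ω j v : ℕ) = 0 := by
  rw [badG, mem_filter]
  exact ⟨fun h => h.2, fun h => ⟨mem_univ _, h⟩⟩

theorem badG_card {κ : Type*} (q : W → ℕ) (hq : ∀ w, 1 ≤ q w) (𝓖 : Finset κ)
    (S : κ → Finset W) (l m : ℕ) (hl : 1 ≤ l) (hne : 𝓖.Nonempty)
    (hcard : ∀ i ∈ 𝓖, (S i).card ≤ l) (hspread : Spread q l 𝓖 S) :
    (badG q m 𝓖 S).card * 2 ^ m ≤ (∏ v, q v) ^ m :=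
  all_rounds q hq 𝓖 S l m hl hne hcard hspread

end H50TW
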