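import Pool.Agent.H50.TW.TLower

/-! # Asymptotic forms of the lower bounds for graphs with a perfect matching -/

open scoped Classical
open Finset H630VC H50CP

namespace H50TW

theorem exists_params (η : ℝ) (hη : 0 < η) :
    ∃ N : ℕ, ∀ n : ℕ, N ≤ n → ∀ t k w : ℕ, t ≤ n → k ≤ n → 1 ≤ w →
      (n : ℝ) ^ (1 + η) * w ^ 7 ≤ t * k →
      ∃ L q : ℕ, 1 ≤ n ∧ 2 ≤ L ∧ 1 ≤ q ∧ 4 * n * MM n L w ≤ t * q ^ 2 ∧ 4 * L ≤ t ∧
        q ^ 2 ≤ n ∧ 2 ^ 20 * (w * L) ^ 6 * (Nat.log 2 n + 1) ^ 2 * q ^ 2 ≤ k ∧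
        (n : ℝ) ^ (η / 8) + 1 ≤ L := by
  obtain ⟨N, hN⟩ := eventually_log (10 ^ 12) (η / 24) (by positivity)
  refine ⟨max N 1, fun n hn t k w htn hkn hw h => ?_⟩
  have hw' : (1 : ℝ) ≤ w := by exact_mod_cast hw
  have hw7 : (1 : ℝ) ≤ (w : ℝ) ^ 7 := one_le_pow₀ hw'
  have hww7 : (w : ℝ) ≤ (w : ℝ) ^ 7 := by
    calc (w : ℝ) = w ^ 1 := (pow_one _).symm
      _ ≤ w ^ 7 := pow_le_pow_right₀ hw' (by norm_num)
  have hn1 : 1 ≤ n := (le_max_right _ _).trans hn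
  have hn0 : (1 : ℝ) ≤ n := by exact_mod_cast hn1
  have hnpos : (0 : ℝ) < n := by linarith
  have hlog := hN n ((le_max_left _ _).trans hn)
  set lam : ℝ := (Nat.log 2 n : ℝ) + 1 with hlam
  have hlam1 : 1 ≤ lam := by
    have : (0 : ℝ) ≤ (Nat.log 2 n : ℝ) := by positivity
    linarith
  set y : ℝ := (n : ℝ) ^ (η / 24) with hy
  have hy1 : 1 ≤ y := Real.one_le_rpow hn0 (by positivity)
  set x : ℝ := (n : ℝ) ^ (η / 8) with hx
  have hx1 : 1 ≤ x := Real.one_le_rpow hn0 (by positivity)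
  have hxy : x = y ^ 3 := by
    rw [hy, hx, ← Real.rpow_natCast, ← Real.rpow_mul (by positivity)]
    congr 1; push_cast; ring
  have hx8 : (n : ℝ) ^ η = x ^ 8 := by
    rw [hx, ← Real.rpow_natCast, ← Real.rpow_mul (by positivity)]
    congr 1; push_cast; ring
  -- `10 ^ 12 * lam ^ 2 ≤ y`
  have hlam3 : 10 ^ 12 * lam ^ 3 ≤ x := by
    have g1 : lam ≤ y := by nlinarith
    have g2 : (0 : ℝ) ≤ 10 ^ 12 * lam ^ 2 := by positivity
    calc 10 ^ 12 * lam ^ 3 = (10 ^ 12 * lam ^ 2) * lam := by ring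
      _ ≤ y * y := mul_le_mul hlog g1 (by linarith) (by linarith)
      _ ≤ y * y * y := by
          have : 0 ≤ y * y := by positivity
          nlinarith
      _ = x := by rw [hxy]; ring
  have h1η : (n : ℝ) ^ (1 + η) = n * x ^ 8 := by
    rw [Real.rpow_add hnpos, Real.rpow_one, hx8]
  rw [h1η] at h
  have hk0 : (0 : ℝ) ≤ k := by positivity
  have hkn' : (k : ℝ) ≤ n := by exact_mod_cast hkn
  have ht0' : (0 : ℝ) ≤ t := by positivity
  have htxw : x ^ 8 * w ^ 7 ≤ t := by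
    have h1 : (n : ℝ) * (x ^ 8 * w ^ 7) ≤ n * t := by
      calc (n : ℝ) * (x ^ 8 * w ^ 7) = n * x ^ 8 * (w : ℝ) ^ 7 := by ring
        _ ≤ (t : ℝ) * k := h
        _ ≤ (t : ℝ) * n := by gcongr
        _ = (n : ℝ) * t := by ring
    exact le_of_mul_le_mul_left h1 hnpos
  have hx8' : (1 : ℝ) ≤ x ^ 8 := one_le_pow₀ hx1
  have htx : x ^ 8 ≤ t := by
    have h0 : (0 : ℝ) ≤ x ^ 8 := by positivity
    nlinarith
  have ht0 : (0 : ℝ) < t := by linarith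
  have htn' : (t : ℝ) ≤ n := by exact_mod_cast htn
  have hdiv : (n : ℝ) / t * x ^ 8 * w ^ 7 ≤ k := by
    have : (n : ℝ) / t * x ^ 8 * w ^ 7 = (n * x ^ 8 * w ^ 7) / t := by
      field_simp
    rw [this, div_le_iff₀ ht0]
    linarith
  have hnt1 : 1 ≤ (n : ℝ) / t := by
    rw [le_div_iff₀ ht0]
    linarith
  set L : ℕ := ⌈x⌉₊ + 1 with hLdef
  have hLx : x + 1 ≤ (L : ℝ) := by
    rw [hLdef]; push_cast
    linarith [Nat.le_ceil x]
  have hLx' : (L : ℝ) ≤ 3 * x := by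
    rw [hLdef]; push_cast
    have := (Nat.ceil_lt_add_one (show (0 : ℝ) ≤ x by linarith)).le
    linarith
  have hL1 : (1 : ℝ) ≤ L := by linarith
  -- the value of `q`
  set z : ℝ := Real.sqrt (32 * ((n : ℝ) / t) * (w * L) * lam) with hz
  have hz0 : (0 : ℝ) ≤ 32 * ((n : ℝ) / t) * (w * L) * lam := by positivity
  have hz2 : z ^ 2 = 32 * ((n : ℝ) / t) * (w * L) * lam := Real.sq_sqrt hz0
  have hz1 : 1 ≤ z := by
    rw [hz]
    apply Real.one_le_sqrt.2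
    have e1 : (1 : ℝ) ≤ w * L := by nlinarith
    have e2 : (1 : ℝ) ≤ ((n : ℝ) / t) * (w * L) := by nlinarith
    have e3 : (1 : ℝ) ≤ ((n : ℝ) / t) * (w * L) * lam := by nlinarith
    linarith
  set q : ℕ := ⌈z⌉₊ with hq
  have hq_ge : z ≤ q := Nat.le_ceil _
  have hq_le : (q : ℝ) ≤ 2 * z := by
    have := (Nat.ceil_lt_add_one (show (0 : ℝ) ≤ z by linarith)).le
    linarith
  have hq2_ge : 32 * ((n : ℝ) / t) * (w * L) * lam ≤ (q : ℝ) ^ 2 := by
    rw [← hz2]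
    exact pow_le_pow_left₀ (by linarith) hq_ge 2
  have hq2_le : (q : ℝ) ^ 2 ≤ 384 * ((n : ℝ) / t) * (w * x) * lam := by
    calc (q : ℝ) ^ 2 ≤ (2 * z) ^ 2 := pow_le_pow_left₀ (by positivity) hq_le 2
      _ = 4 * z ^ 2 := by ring
      _ = 128 * ((n : ℝ) / t) * (w * L) * lam := by rw [hz2]; ring
      _ ≤ 128 * ((n : ℝ) / t) * (w * (3 * x)) * lam := by gcongr
      _ = 384 * ((n : ℝ) / t) * (w * x) * lam := by ring
  have hlamx : 10 ^ 12 * lam ≤ x := by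
    have : lam ≤ lam ^ 3 := by
      calc lam = lam ^ 1 := (pow_one _).symm
        _ ≤ lam ^ 3 := pow_le_pow_right₀ hlam1 (by norm_num)
    linarith
  have hL2 : 2 ≤ L := by
    have : 0 < ⌈x⌉₊ := Nat.ceil_pos.2 (by linarith)
    omega
  have hx2 : x ≤ x ^ 2 := by nlinarith
  have hx28 : x ^ 2 ≤ x ^ 8 := pow_le_pow_right₀ hx1 (by norm_num)
  refine ⟨L, q, hn1, hL2, ?_, ?_, ?_, ?_, ?_, hLx⟩
  · exact Nat.one_le_iff_ne_zero.2 (Nat.ceil_pos.2 (by linarith)).ne'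
  · have h1 : ((4 * n * MM n L w : ℕ) : ℝ) ≤ ((t * q ^ 2 : ℕ) : ℝ) := by
      unfold MM
      push_cast
      rw [← hlam]
      calc 4 * (n : ℝ) * (8 * (w * L) * lam) = t * (32 * ((n : ℝ) / t) * (w * L) * lam) := by
            field_simp
            ring
        _ ≤ t * (q : ℝ) ^ 2 := mul_le_mul_of_nonneg_left hq2_ge ht0'
    exact_mod_cast h1
  · have h1 : (4 * L : ℝ) ≤ t := by
      have h2 : (12 : ℝ) ≤ x := by nlinarith
      have h3 : 12 * x ≤ x ^ 2 := by nlinarith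
      linarith
    exact_mod_cast h1
  · have h1 : (q : ℝ) ^ 2 ≤ n := by
      refine hq2_le.trans ?_
      have h3 : 384 * lam * x * w ≤ t := by
        refine le_trans ?_ htxw
        have h4 : 384 * lam * x ≤ x ^ 8 := by
          have h5 : 384 * lam ≤ x := by linarith
          calc 384 * lam * x ≤ x * x := by gcongr
            _ = x ^ 2 := by ring
            _ ≤ x ^ 8 := hx28
        exact mul_le_mul h4 hww7 (by positivity) (by positivity)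
      calc 384 * ((n : ℝ) / t) * (w * x) * lam = (n : ℝ) / t * (384 * lam * x * w) := by ring
        _ ≤ (n : ℝ) / t * t := by gcongr
        _ = n := by field_simp
    exact_mod_cast h1
  · have h1 : (2 ^ 20 * (w * L) ^ 6 * lam ^ 2 * (q : ℝ) ^ 2 : ℝ) ≤ k := by
      calc (2 ^ 20 * (w * L) ^ 6 * lam ^ 2 * (q : ℝ) ^ 2 : ℝ)
          ≤ 2 ^ 20 * (w * (3 * x)) ^ 6 * lam ^ 2 * (384 * ((n : ℝ) / t) * (w * x) * lam) := by
            gcongr
        _ = ((n : ℝ) / t * x ^ 7 * w ^ 7) * (293534171136 * lam ^ 3) := by ring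
        _ ≤ ((n : ℝ) / t * x ^ 7 * w ^ 7) * x := by
            gcongr
            have : (0 : ℝ) ≤ lam ^ 3 := by positivity
            linarith
        _ = (n : ℝ) / t * x ^ 8 * w ^ 7 := by ring
        _ ≤ k := hdiv
    rw [hlam] at h1
    exact_mod_cast h1

/-- the lower bounds for all kinds of information `X` about graphs with a perfect matching that
contain the disjoint unions of cliques -/
theorem asymp_gen (η : ℝ) (hη : 0 < η) :
    ∃ N : ℕ, ∀ n t k w D : ℕ, N ≤ n → t ≤ n → k ≤ n → 1 ≤ w → 1 ≤ D →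
      (n : ℝ) ^ (1 + η) * ((w * D : ℕ) : ℝ) ^ 7 ≤ t * k → ∃ A : ℕ, 0 < A ∧ A ≤ k ∧
      ∀ (X : Type) (Γ : X → SimpleGraph (Fin n ⊕ Fin n)) (𝓒 : Set (Finset (Fin n ⊕ Fin n)))
        (ξ : (Fin n × Bool → Fin A) → X), (∀ β, Γ (ξ β) = twG β) →
        (∀ T : Finset (Fin n ⊕ Fin n), T.card ≤ n + t → T ∈ 𝓒) →
        ∀ l : List (Finset (Comparison X (Fin n ⊕ Fin n))), Argument Γ 𝓒 w D l →
        (∃ b ∈ l, ∀ β, ∀ T : Finset (Fin n ⊕ Fin n), T.card ≤ n + t →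
          ∃ c ∈ b, ¬ c.Holds (ξ β) T) →
        (2 : ℝ) ^ ((n : ℝ) ^ (η / 8)) ≤ D * l.length := by
  obtain ⟨N, hN⟩ := exists_params η hη
  refine ⟨N, fun n t k w D hn ht hk hw hD h => ?_⟩
  have hwD : 1 ≤ w * D := Nat.mul_pos hw hD
  obtain ⟨L, q, g1, g2, g3, g4, g5, g6, g7, g8⟩ := hN n hn t k (w * D) ht hk hwD h
  have hMM : 0 < MM n L (w * D) := by
    unfold MM
    positivity
  have hc : 0 < tcols (w * D) L (MM n L (w * D)) q := by
    unfold tcols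
    positivity
  refine ⟨tcols (w * D) L (MM n L (w * D)) q, hc,
    (tcols_le n L (w * D) q (by omega) hwD).trans g7, ?_⟩
  intro X Γ 𝓒 ξ hξ h𝓒 l hl hno
  have := two_pow_le (by positivity) g8 (lower_tw g1 g2 g3 hw hD g4 g5 g6 ξ hξ h𝓒 hl hno)
  push_cast at this
  exact this

/-- the partitioned graph of a colouring -/
def partTw {n A k : ℕ} (hA : A ≤ k) (β : Fin n × Bool → Fin A) : Partitioned (pmGraphs n) k :=
  ⟨(twG β, fun v => Fin.castLE hA (β (sw n v))), twG_mem _, fun _ _ h h' =>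
    twG_class β h (Fin.castLE_injective hA h')⟩

/-- the lower bounds for refutations -/
theorem asymp (η : ℝ) (hη : 0 < η) :
    ∃ N : ℕ, ∀ n t k w D : ℕ, N ≤ n → t ≤ n → k ≤ n → 1 ≤ w → 1 ≤ D →
      (n : ℝ) ^ (1 + η) * ((w * D : ℕ) : ℝ) ^ 7 ≤ t * k →
      ∀ l, Refutes (pmGraphs n) (n + t) k w D l →
        (2 : ℝ) ^ ((n : ℝ) ^ (η / 8)) ≤ D * l.length := by
  obtain ⟨N, hN⟩ := asymp_gen η hη
  refine ⟨N, fun n t k w D hn ht hk hw hD h => ?_⟩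
  obtain ⟨A, hA, hAk, h2⟩ := hN n t k w D hn ht hk hw hD h
  rintro l ⟨hl, a, ha, hno⟩
  exact h2 _ _ _ (partTw hAk) (fun _ => rfl) (fun _ h => h) l hl
    ⟨a, ha, fun β T hT => hno _ T hT⟩

end H50TW
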