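import Pool.Agent.H50.TW.TCrit
import Pool.Agent.H50.CP.WCore

/-! # The lower bound for circuits which are given the perfect matching -/

set_option linter.unusedSectionVars false

open scoped Classical
open Finset H630VC H50CP

namespace H50TW

variable {ι : Type*} [Fintype ι]

/-- the number of colours -/
abbrev tcols (w L m q : ℕ) : ℕ :=
  (4 * (2 * (4 * (w * L) * (w * L + 1) * (2 * m * q)))) ^ 2

/-- positive tests: the disjoint union of the cliques on the colour classes and the matching -/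
def posG {B : ℕ} (β : ι × Bool → Fin B) : SimpleGraph (ι × Bool) where
  Adj u v := u ≠ v ∧ (u.1 = v.1 ∨ β u = β v)
  symm := ⟨fun _ _ h => ⟨h.1.symm, h.2.imp Eq.symm Eq.symm⟩⟩
  loopless := ⟨fun _ h => h.1 rfl⟩

theorem exists_tclosed [Nonempty ι] (m Q l : ℕ) (hm : 1 ≤ m) (hQ : 1 ≤ Q)
    (lam : Small (ι × Bool) l → ℝ) :
    ∃ lam' : Small (ι × Bool) l → ℝ, (∀ r, lam r ≤ lam' r) ∧ TClosed ι m Q l lam' ∧
      (univ.filter fun ω : Ot ι m Q => ∃ r : Small (ι × Bool) l, Sat (killed ω) ⊥ r.1 ∧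
        ∀ r' : Small (ι × Bool) l, Sat (killed ω) ⊥ r'.1 → lam r' < lam' r).card * 2 ^ m
        ≤ Fintype.card (ι × Bool) ^ (2 * l) * Fintype.card (Ot ι m Q) := by
  have hpos : 0 < Fintype.card (Ot ι m Q) := by
    have : NeZero Q := ⟨by omega⟩
    have : NeZero (2 * m) := ⟨by omega⟩
    exact Fintype.card_pos
  obtain ⟨lam', h1, h2, h3⟩ := exists_closure (Ω := Ot ι m Q) (S := Small (ι × Bool) l)
    (fun ω r0 r => Sat (killed ω) r0.1 r.1) (fun ω r => Sat (killed ω) ⊥ r.1)
    (fun ω r0 r h h' => sat_bot_of_sat h h') (Fintype.card (Ot ι m Q) / 2 ^ m)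
    (Nat.div_lt_self hpos (Nat.one_lt_two_pow (by omega))) lam
  refine ⟨lam', h1, ?_, ?_⟩
  · intro r0 θ hr0
    apply h2
    rw [Nat.le_div_iff_mul_le (by positivity)]
    exact hr0
  · calc _ ≤ (Fintype.card (Small (ι × Bool) l) * (Fintype.card (Ot ι m Q) / 2 ^ m)) * 2 ^ m :=
          Nat.mul_le_mul_right _ h3
      _ = Fintype.card (Small (ι × Bool) l) * (Fintype.card (Ot ι m Q) / 2 ^ m * 2 ^ m) := by
          ring
      _ ≤ Fintype.card (Small (ι × Bool) l) * Fintype.card (Ot ι m Q) :=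
          Nat.mul_le_mul_left _ (Nat.div_mul_le_self _ _)
      _ ≤ _ := Nat.mul_le_mul_right _ (card_small l)

theorem card_filter_univ {α : Type*} {i i' : Fintype α} {p : α → Prop} {d d' : DecidablePred p} :
    (@Finset.filter α p d (@Finset.univ α i)).card =
      (@Finset.filter α p d' (@Finset.univ α i')).card := by
  have h1 : i = i' := Subsingleton.elim _ _
  have h2 : d = d' := Subsingleton.elim _ _
  rw [h1, h2]

theorem card_colourings' (b : ℕ) (r : Setoid (ι × Bool)) :
    (univ.filter fun β : ι × Bool → Fin (b ^ 2) => r ≤ Setoid.ker β).card * b ^ (supp r).card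
      ≤ (b ^ 2) ^ Fintype.card (ι × Bool) := by
  have h := card_colourings b r
  exact le_trans (le_of_eq (congrArg (fun c => c * b ^ (supp r).card) card_filter_univ)) h

theorem card_negT (m Q t : ℕ) (hm : 1 ≤ m) (hQ : 1 ≤ Q) (s : Finset (ι × Bool))
    (ht : 2 * ((s.image Prod.fst).card * Q + Fintype.card ι * m) ≤ t * Q) :
    Fintype.card (Ot ι m Q) ≤ (univ.filter fun ω : Ot ι m Q =>
      s.image Prod.fst ⊆ marked ω.2 ∧ (marked ω.2).card ≤ t).card *
        (2 * Q ^ (s.image Prod.fst).card) := by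
  have h := card_neg m Q t hm hQ (s.image Prod.fst) ht
  have h1 : ((univ : Finset (ι → Bool × (Fin m → Fin (2 * m)))) ×ˢ
      (univ.filter fun ω : Om ι m Q => s.image Prod.fst ⊆ marked ω ∧ (marked ω).card ≤ t)).card ≤
      (univ.filter fun ω : Ot ι m Q =>
        s.image Prod.fst ⊆ marked ω.2 ∧ (marked ω.2).card ≤ t).card := by
    refine card_le_card fun ω hω => ?_
    exact mem_filter.2 ⟨mem_univ _, (mem_filter.1 (mem_product.1 hω).2).2⟩
  rw [card_product, card_univ] at h1
  rw [Fintype.card_prod]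
  calc _ ≤ Fintype.card (ι → Bool × (Fin m → Fin (2 * m))) *
        ((univ.filter fun ω : Om ι m Q =>
          s.image Prod.fst ⊆ marked ω ∧ (marked ω).card ≤ t).card *
            (2 * Q ^ (s.image Prod.fst).card)) := Nat.mul_le_mul_left _ h
    _ = (Fintype.card (ι → Bool × (Fin m → Fin (2 * m))) * (univ.filter fun ω : Om ι m Q =>
          s.image Prod.fst ⊆ marked ω ∧ (marked ω).card ≤ t).card) *
            (2 * Q ^ (s.image Prod.fst).card) := by ring
    _ ≤ _ := Nat.mul_le_mul_right _ h1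

/-- a closed level function is monotone -/
theorem TClosed.mono {m Q l : ℕ} {lam : Small (ι × Bool) l → ℝ} (hc : TClosed ι m Q l lam)
    {r r' : Small (ι × Bool) l} (h : r.1 ≤ r'.1) : lam r ≤ lam r' := by
  apply hc
  have : (univ.filter fun ω : Ot ι m Q =>
      ¬ ∃ r1 : Small (ι × Bool) l, Sat (killed ω) r'.1 r1.1 ∧ lam r ≤ lam r1) = ∅ := by
    apply filter_eq_empty_iff.2
    intro ω _ h'
    exact h' ⟨r, sat_of_le h, le_rfl⟩
  rw [this]
  simp

/-- colourings compatible with a critical relation with large support are rare -/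
theorem tcard_bad_pos (w L m q : ℕ) (hw : 1 ≤ w) (hL : 1 ≤ L) (hm : 1 ≤ m) (hq : 1 ≤ q)
    (lam : Small (ι × Bool) (w * L) → ℝ) (hc : TClosed ι m (q ^ 2) (w * L) lam) :
    (univ.filter fun β : ι × Bool → Fin (tcols w L m q) =>
      ∃ r : Small (ι × Bool) (w * L), Crit lam r ∧ L < (supp r.1).card ∧ r.1 ≤ Setoid.ker β).card
      * (4 * 2 ^ L) ≤ tcols w L m q ^ Fintype.card (ι × Bool) := by
  have hwL : 1 ≤ w * L := Nat.mul_pos hw hL
  unfold tcols
  set K := 2 * (4 * (w * L) * (w * L + 1) * (2 * m * q)) with hK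
  have hKpos : 0 < K := by positivity
  clear_value K
  set M := ((4 * K) ^ 2) ^ Fintype.card (ι × Bool) with hM
  set A : ℕ → ℕ := fun j => (univ.filter fun β : ι × Bool → Fin ((4 * K) ^ 2) =>
        ∃ r : Small (ι × Bool) (w * L), (Crit lam r ∧ (supp r.1).card = j) ∧ r.1 ≤ Setoid.ker β).card
    with hA
  -- for each support size
  have key : ∀ j ∈ Finset.Ioc L (w * L), A j * 4 ^ j ≤ M := by
    intro j hj
    rw [Finset.mem_Ioc] at hj
    have h1 : (univ.filter fun β : ι × Bool → Fin ((4 * K) ^ 2) =>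
        ∃ r : Small (ι × Bool) (w * L), (Crit lam r ∧ (supp r.1).card = j) ∧ r.1 ≤ Setoid.ker β)
        ⊆ (univ.filter fun r : Small (ι × Bool) (w * L) => Crit lam r ∧ (supp r.1).card = j).biUnion
          (fun r => univ.filter fun β : ι × Bool → Fin ((4 * K) ^ 2) => r.1 ≤ Setoid.ker β) := by
      intro β hβ
      simp only [mem_filter, mem_univ, true_and, mem_biUnion] at hβ ⊢
      obtain ⟨r, h, h'⟩ := hβ
      exact ⟨r, h, h'⟩
    have h2 : ∀ r ∈ (univ.filter fun r : Small (ι × Bool) (w * L) => Crit lam r ∧ (supp r.1).card = j),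
        (univ.filter fun β : ι × Bool → Fin ((4 * K) ^ 2) => r.1 ≤ Setoid.ker β).card * (4 * K) ^ j
          ≤ M := by
      intro r hr
      simp only [mem_filter, mem_univ, true_and] at hr
      have := card_colourings' (4 * K) r.1
      rwa [hr.2] at this
    have h3 : A j * (4 * K) ^ j ≤ K ^ j * M := by
      calc _ ≤ (∑ r ∈ (univ.filter fun r : Small (ι × Bool) (w * L) => Crit lam r ∧ (supp r.1).card = j),
            (univ.filter fun β : ι × Bool → Fin ((4 * K) ^ 2) => r.1 ≤ Setoid.ker β).card)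
            * (4 * K) ^ j := Nat.mul_le_mul_right _ ((card_le_card h1).trans card_biUnion_le)
        _ = ∑ r ∈ (univ.filter fun r : Small (ι × Bool) (w * L) => Crit lam r ∧ (supp r.1).card = j),
            (univ.filter fun β : ι × Bool → Fin ((4 * K) ^ 2) => r.1 ≤ Setoid.ker β).card
            * (4 * K) ^ j := by rw [Finset.sum_mul]
        _ ≤ ∑ r ∈ (univ.filter fun r : Small (ι × Bool) (w * L) => Crit lam r ∧ (supp r.1).card = j), M :=
            Finset.sum_le_sum h2
        _ = (univ.filter fun r : Small (ι × Bool) (w * L) => Crit lam r ∧ (supp r.1).card = j).card * M := by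
            simp
        _ ≤ K ^ j * M := Nat.mul_le_mul_right _
            (by rw [hK]; exact tcard_crit (w * L) m q hwL hm hq lam hc j hj.2)
    have : K ^ j * (A j * 4 ^ j) ≤ K ^ j * M := by
      calc _ = A j * (4 * K) ^ j := by rw [mul_pow]; ring
        _ ≤ _ := h3
    exact Nat.le_of_mul_le_mul_left this (by positivity)
  have hsub : (univ.filter fun β : ι × Bool → Fin ((4 * K) ^ 2) =>
      ∃ r : Small (ι × Bool) (w * L), Crit lam r ∧ L < (supp r.1).card ∧ r.1 ≤ Setoid.ker β)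
      ⊆ (Finset.Ioc L (w * L)).biUnion (fun j => univ.filter fun β : ι × Bool → Fin ((4 * K) ^ 2) =>
        ∃ r : Small (ι × Bool) (w * L), (Crit lam r ∧ (supp r.1).card = j) ∧ r.1 ≤ Setoid.ker β) := by
    intro β hβ
    simp only [mem_filter, mem_univ, true_and, mem_biUnion, mem_Ioc] at hβ ⊢
    obtain ⟨r, h, h', h''⟩ := hβ
    exact ⟨(supp r.1).card, ⟨h', r.2⟩, r, ⟨h, rfl⟩, h''⟩
  have hle : L ≤ w * L := Nat.le_mul_of_pos_left L hw
  have hgeom := geom_aux (fun j => (A j : ℝ)) (M : ℝ) L (w * L) hle (by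
    intro j hj
    have h1 : (A j : ℝ) * 4 ^ j ≤ M := by exact_mod_cast key j hj
    have h2 : (M : ℝ) * (1 / 4) ^ j = M / 4 ^ j := by
      rw [one_div, inv_pow]; rfl
    rw [h2, le_div_iff₀ (by positivity)]
    exact h1)
  have hcard : ((univ.filter fun β : ι × Bool → Fin ((4 * K) ^ 2) =>
      ∃ r : Small (ι × Bool) (w * L), Crit lam r ∧ L < (supp r.1).card ∧ r.1 ≤ Setoid.ker β).card : ℝ)
      ≤ ∑ j ∈ Finset.Ioc L (w * L), (A j : ℝ) := by
    exact_mod_cast (card_le_card hsub).trans card_biUnion_le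
  set X := (univ.filter fun β : ι × Bool → Fin ((4 * K) ^ 2) =>
      ∃ r : Small (ι × Bool) (w * L), Crit lam r ∧ L < (supp r.1).card ∧ r.1 ≤ Setoid.ker β).card with hX
  have h1 : (X : ℝ) * 3 ≤ M * (1 / 4) ^ L := by
    have h2 : (0 : ℝ) ≤ M * (1 / 4) ^ (w * L) := by positivity
    have h3 : (X : ℝ) * 3 ≤ (∑ j ∈ Finset.Ioc L (w * L), (A j : ℝ)) * 3 := by linarith
    linarith [mul_sub (M : ℝ) ((1 / 4) ^ L) ((1 / 4) ^ (w * L))]
  have h2 : (X : ℝ) * (4 * 2 ^ L) ≤ M := by
    have h3 : (2 : ℝ) ≤ 2 ^ L := by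
      calc (2 : ℝ) = 2 ^ 1 := (pow_one _).symm
        _ ≤ 2 ^ L := pow_le_pow_right₀ (by norm_num) hL
    have h4 : (1 / 4 : ℝ) ^ L * (2 ^ L * 2 ^ L) = 1 := by
      rw [← mul_pow, ← mul_pow]
      norm_num
    have h5 : (X : ℝ) * 3 * (2 ^ L * 2 ^ L) ≤ M := by
      calc (X : ℝ) * 3 * (2 ^ L * 2 ^ L) ≤ M * (1 / 4) ^ L * (2 ^ L * 2 ^ L) :=
            mul_le_mul_of_nonneg_right h1 (by positivity)
        _ = M * ((1 / 4) ^ L * (2 ^ L * 2 ^ L)) := by ring
        _ = M := by rw [h4, mul_one]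
    have h6 : (X : ℝ) * (4 * 2 ^ L) ≤ (X : ℝ) * 3 * (2 ^ L * 2 ^ L) := by
      have h7 : (0 : ℝ) ≤ X * 2 ^ L := by positivity
      nlinarith
    linarith
  exact_mod_cast h2

/-- the approximation property of a function on graphs outside given bad sets of tests -/
def TApprox (ι : Type*) [Fintype ι] (w L m q : ℕ) (badP : Finset (ι × Bool → Fin (tcols w L m q)))
    (badN : Finset (Ot ι m (q ^ 2))) (f : SimpleGraph (ι × Bool) → ℝ) : Prop :=
  ∃ lam : Small (ι × Bool) (w * L) → ℝ, (∀ r r', r.1 ≤ r'.1 → lam r ≤ lam r') ∧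
    (∀ β, β ∉ badP → ∃ r : Small (ι × Bool) (w * L), (supp r.1).card ≤ L ∧ r.1 ≤ Setoid.ker β ∧
      f (posG β) ≤ lam r) ∧
    (∀ ω, ω ∉ badN → ∀ r : Small (ι × Bool) (w * L), Sat (killed ω) ⊥ r.1 →
      lam r ≤ f (touchGraph (killed ω)))

theorem TApprox.mono {w L m q : ℕ} {badP badP' : Finset (ι × Bool → Fin (tcols w L m q))}
    {badN badN' : Finset (Ot ι m (q ^ 2))} {f : SimpleGraph (ι × Bool) → ℝ} (h : TApprox ι w L m q badP badN f)
    (hP : badP ⊆ badP') (hN : badN ⊆ badN') : TApprox ι w L m q badP' badN' f := by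
  obtain ⟨lam, h1, h2, h3⟩ := h
  exact ⟨lam, h1, fun β hβ => h2 β (fun h => hβ (hP h)), fun ω hω => h3 ω (fun h => hω (hN h))⟩

/-- one step: from a raw level function to an approximation -/
theorem tapprox_step [Nonempty ι] (w L m q : ℕ) (hw : 1 ≤ w) (hL : 1 ≤ L) (hm : 1 ≤ m)
    (hq : 1 ≤ q)
    (badP : Finset (ι × Bool → Fin (tcols w L m q))) (badN : Finset (Ot ι m (q ^ 2))) (f : SimpleGraph (ι × Bool) → ℝ)
    (lam : Small (ι × Bool) (w * L) → ℝ)
    (hP : ∀ β, β ∉ badP → ∃ r : Small (ι × Bool) (w * L), r.1 ≤ Setoid.ker β ∧ f (posG β) ≤ lam r)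
    (hN : ∀ ω, ω ∉ badN → ∀ r : Small (ι × Bool) (w * L), Sat (killed ω) ⊥ r.1 →
      lam r ≤ f (touchGraph (killed ω))) :
    ∃ (newP : Finset (ι × Bool → Fin (tcols w L m q))) (newN : Finset (Ot ι m (q ^ 2))),
      newP.card * (4 * 2 ^ L) ≤ tcols w L m q ^ Fintype.card (ι × Bool) ∧
      newN.card * 2 ^ m ≤ Fintype.card (ι × Bool) ^ (2 * (w * L)) * Fintype.card (Ot ι m (q ^ 2)) ∧
      TApprox ι w L m q (badP ∪ newP) (badN ∪ newN) f := by
  obtain ⟨lam', h1, h2, h3⟩ := exists_tclosed m (q ^ 2) (w * L) hm (Nat.one_le_pow _ _ hq) lam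
  refine ⟨univ.filter fun β => ∃ r : Small (ι × Bool) (w * L), Crit lam' r ∧ L < (supp r.1).card ∧
      r.1 ≤ Setoid.ker β, univ.filter fun ω : Ot ι m (q ^ 2) => ∃ r : Small (ι × Bool) (w * L),
      Sat (killed ω) ⊥ r.1 ∧ ∀ r' : Small (ι × Bool) (w * L), Sat (killed ω) ⊥ r'.1 → lam r' < lam' r,
      tcard_bad_pos w L m q hw hL hm hq lam' h2, h3, lam', fun r r' h => TClosed.mono h2 h, ?_, ?_⟩
  · intro β hβ
    simp only [mem_union, mem_filter, mem_univ, true_and, not_or, not_exists, not_and] at hβ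
    obtain ⟨r0, hr0, hr0'⟩ := hP β hβ.1
    -- choose a minimal witness
    have hne : (univ.filter fun r : Small (ι × Bool) (w * L) => r.1 ≤ Setoid.ker β ∧
        f (posG β) ≤ lam' r).Nonempty :=
      ⟨r0, by simp only [mem_filter, mem_univ, true_and]; exact ⟨hr0, hr0'.trans (h1 r0)⟩⟩
    obtain ⟨r, hr, hmin⟩ := Finset.exists_minimal hne
    simp only [mem_filter, mem_univ, true_and] at hr hmin
    refine ⟨r, ?_, hr.1, hr.2⟩
    by_contra hcard
    rw [not_le] at hcard
    refine hβ.2 r ?_ hcard hr.1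
    intro r' hr' hne'
    by_contra hlt
    rw [not_lt] at hlt
    have := hmin ⟨hr'.trans hr.1, hr.2.trans hlt⟩ hr'
    exact hne' (Subtype.ext (le_antisymm hr' this))
  · intro ω hω r hr
    simp only [mem_union, mem_filter, mem_univ, true_and, not_or, not_exists, not_and,
      not_forall, not_lt] at hω
    obtain ⟨r', hr', hle⟩ := hω.2 r hr
    exact hle.trans (hN ω hω.1 r' hr')

theorem pair_small' {l : ℕ} (hl : 2 ≤ l) (u v : ι × Bool) :
    (supp (restr {u, v} (⊤ : Setoid (ι × Bool)))).card ≤ l :=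
  (card_le_card (supp_restr_subset _ _)).trans (card_le_two.trans hl)

/-- inputs are approximated without errors -/
theorem tapprox_input (w L m q : ℕ) (hw : 1 ≤ w) (hL : 2 ≤ L)
    {f : SimpleGraph (ι × Bool) → ℝ} (hf : f ∈ graphInputs (ι × Bool)) :
    TApprox ι w L m q ∅ ∅ f := by
  have hwL : L ≤ w * L := Nat.le_mul_of_pos_left L hw
  have hbot : (supp (⊥ : Setoid (ι × Bool))).card ≤ w * L := by rw [supp_bot]; simp
  have hbotL : (supp (⊥ : Setoid (ι × Bool))).card ≤ L := by rw [supp_bot]; simp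
  rcases hf with ⟨u, v, rfl⟩ | ⟨c, rfl⟩
  · by_cases hpart : u ≠ v ∧ u.1 = v.1
    · -- an edge of the matching
      refine ⟨fun _ => 1, fun _ _ _ => le_rfl, fun β _ => ⟨⟨⊥, hbot⟩, hbotL, bot_le, ?_⟩,
        fun ω _ r _ => ?_⟩
      · simp only [edgeBit]
        split_ifs <;> norm_num
      · have hadj : (touchGraph (killed ω)).Adj u v := by
          refine ⟨hpart.1, ?_⟩
          rw [mem_killed, mem_killed]
          by_cases h1 : (ω.1 u.1).1 = u.2
          · exact Or.inl (Or.inl h1)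
          · refine Or.inr (Or.inl ?_)
            rw [← hpart.2]
            have h2 : u.2 ≠ v.2 := fun h3 => hpart.1 (Prod.ext hpart.2 h3)
            revert h1 h2
            cases (ω.1 u.1).1 <;> cases u.2 <;> cases v.2 <;> simp
        simp only [edgeBit, hadj, if_true]
        exact le_rfl
    · refine ⟨fun r => if u ≠ v ∧ r.1 u v then 1 else 0, ?_, ?_, ?_⟩
      · intro r r' h
        beta_reduce
        by_cases h1 : u ≠ v ∧ r.1 u v
        · have h2 : u ≠ v ∧ r'.1 u v := ⟨h1.1, h h1.2⟩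
          rw [if_pos h1, if_pos h2]
        · rw [if_neg h1]
          split_ifs <;> norm_num
      · intro β _
        by_cases h : (posG β).Adj u v
        · refine ⟨⟨restr {u, v} ⊤, pair_small' (hL.trans hwL) u v⟩, pair_small' hL u v, ?_, ?_⟩
          · intro x y hxy
            rcases hxy with hxy | ⟨hx, hy, -⟩
            · subst hxy; rfl
            · have huv : β u = β v := h.2.resolve_left fun h3 => hpart ⟨h.1, h3⟩
              simp only [mem_insert, mem_singleton] at hx hy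
              rw [Setoid.ker_def]
              rcases hx with rfl | rfl <;> rcases hy with rfl | rfl <;> simp [huv]
          · have hr : restr {u, v} (⊤ : Setoid (ι × Bool)) u v :=
              Or.inr ⟨by simp, by simp, trivial⟩
            simp only [edgeBit, h, if_true]
            rw [if_pos ⟨h.1, hr⟩]
        · refine ⟨⟨⊥, hbot⟩, hbotL, bot_le, ?_⟩
          simp only [edgeBit, h, if_false]
          split_ifs <;> norm_num
      · intro ω _ r hr
        simp only [edgeBit]
        by_cases h : u ≠ v ∧ r.1 u v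
        · rw [if_pos h]
          have : (touchGraph (killed ω)).Adj u v := by
            refine ⟨h.1, ?_⟩
            by_contra hcon
            rw [not_or] at hcon
            exact h.1 (hr u v hcon.1 hcon.2 h.2)
          rw [if_pos this]
        · rw [if_neg h]
          split_ifs <;> norm_num
  · exact ⟨fun _ => c, fun _ _ _ => le_rfl, fun β _ => ⟨⟨⊥, hbot⟩, hbotL, bot_le, le_rfl⟩,
      fun ω _ r _ => le_rfl⟩

theorem tapprox_prog [Nonempty ι] (w L m q : ℕ) (hw : 1 ≤ w) (hL : 2 ≤ L) (hm : 1 ≤ m)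
    (hq : 1 ≤ q) {l : List (SimpleGraph (ι × Bool) → ℝ)} (hp : WProg w (graphInputs (ι × Bool)) l) :
    ∃ (badP : Finset (ι × Bool → Fin (tcols w L m q))) (badN : Finset (Ot ι m (q ^ 2))),
      badP.card * (4 * 2 ^ L) ≤ l.length * tcols w L m q ^ Fintype.card (ι × Bool) ∧
      badN.card * 2 ^ m ≤
        l.length * (Fintype.card (ι × Bool) ^ (2 * (w * L)) * Fintype.card (Ot ι m (q ^ 2))) ∧
      ∀ f ∈ l, TApprox ι w L m q badP badN f := by
  induction hp with
  | nil => exact ⟨∅, ∅, by simp, by simp, by simp⟩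
  | @gate l S φ f hp hS hSl hφ hf ih =>
    obtain ⟨badP, badN, h1, h2, h3⟩ := ih
    have hall : ∀ g ∈ S, TApprox ι w L m q badP badN g := by
      intro g hg
      rcases hSl g hg with h | h
      · exact (tapprox_input w L m q hw hL h).mono (empty_subset _) (empty_subset _)
      · exact h3 g h
    have hex : ∀ g : SimpleGraph (ι × Bool) → ℝ, ∃ lam : Small (ι × Bool) (w * L) → ℝ, g ∈ S →
        (∀ r r', r.1 ≤ r'.1 → lam r ≤ lam r') ∧
        (∀ β, β ∉ badP → ∃ r : Small (ι × Bool) (w * L), (supp r.1).card ≤ L ∧ r.1 ≤ Setoid.ker β ∧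
          g (posG β) ≤ lam r) ∧
        (∀ ω, ω ∉ badN → ∀ r : Small (ι × Bool) (w * L), Sat (killed ω) ⊥ r.1 →
          lam r ≤ g (touchGraph (killed ω))) := by
      intro g
      by_cases hg : g ∈ S
      · obtain ⟨lam, h⟩ := hall g hg
        exact ⟨lam, fun _ => h⟩
      · exact ⟨fun _ => 0, fun h => absurd h hg⟩
    choose lam hlam using hex
    obtain ⟨newP, newN, g1, g2, g3⟩ := tapprox_step w L m q hw (by omega) hm hq badP badN f
      (fun r => φ fun g => lam g r)
      (by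
        intro β hβ
        have hr : ∀ g : SimpleGraph (ι × Bool) → ℝ, ∃ r : Setoid (ι × Bool), g ∈ S →
            (supp r).card ≤ L ∧ r ≤ Setoid.ker β ∧ ∀ r' : Small (ι × Bool) (w * L), r ≤ r'.1 →
              g (posG β) ≤ lam g r' := by
          intro g
          by_cases hg : g ∈ S
          · obtain ⟨r, e1, e2, e3⟩ := (hlam g hg).2.1 β hβ
            exact ⟨r.1, fun _ => ⟨e1, e2, fun r' hr' => e3.trans ((hlam g hg).1 r r' hr')⟩⟩
          · exact ⟨⊥, fun h => absurd h hg⟩
        choose r hr using hr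
        obtain ⟨r', e1, e2, e3⟩ := exists_sup S r L (Setoid.ker β)
          fun g hg => ⟨(hr g hg).1, (hr g hg).2.1⟩
        refine ⟨⟨r', e1.trans (Nat.mul_le_mul_right _ hS)⟩, e2, ?_⟩
        rw [hf]
        exact hφ _ _ fun g hg => (hr g hg).2.2 _ (e3 g hg))
      (by
        intro ω hω r hr
        rw [hf]
        exact hφ _ _ fun g hg => (hlam g hg).2.2 ω hω r hr)
    refine ⟨badP ∪ newP, badN ∪ newN, ?_, ?_, ?_⟩
    · calc _ ≤ (badP.card + newP.card) * (4 * 2 ^ L) :=
            Nat.mul_le_mul_right _ (card_union_le _ _)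
        _ = badP.card * (4 * 2 ^ L) + newP.card * (4 * 2 ^ L) := by ring
        _ ≤ l.length * tcols w L m q ^ Fintype.card (ι × Bool) + tcols w L m q ^ Fintype.card (ι × Bool) := by gcongr
        _ = _ := by rw [List.length_cons]; ring
    · calc _ ≤ (badN.card + newN.card) * 2 ^ m :=
            Nat.mul_le_mul_right _ (card_union_le _ _)
        _ = badN.card * 2 ^ m + newN.card * 2 ^ m := by ring
        _ ≤ l.length * (Fintype.card (ι × Bool) ^ (2 * (w * L)) * Fintype.card (Ot ι m (q ^ 2))) +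
            Fintype.card (ι × Bool) ^ (2 * (w * L)) * Fintype.card (Ot ι m (q ^ 2)) := by gcongr
        _ = _ := by rw [List.length_cons]; ring
    · intro g hg
      rcases List.mem_cons.1 hg with rfl | hg
      · exact g3
      · exact (h3 g hg).mono subset_union_left subset_union_left

/-- the core lower bound -/
theorem tcore [Nonempty ι] (w L m q t : ℕ) (hw : 1 ≤ w) (hL : 2 ≤ L) (hq : 1 ≤ q)
    {l : List (SimpleGraph (ι × Bool) → ℝ)} (hp : WProg w (graphInputs (ι × Bool)) l)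
    {f : SimpleGraph (ι × Bool) → ℝ} (hf : f ∈ l) (θ : ℝ)
    (hpos : ∀ β : ι × Bool → Fin (tcols w L m q), θ ≤ f (posG β))
    (hneg : ∀ T : Finset (ι × Bool), T.card ≤ Fintype.card ι + t →
      (∀ i, (i, false) ∈ T ∨ (i, true) ∈ T) → f (touchGraph T) < θ)
    (ht : 2 * (L * q ^ 2 + Fintype.card ι * m) ≤ t * q ^ 2)
    (hm : 2 ^ L * Fintype.card (ι × Bool) ^ (2 * (w * L)) * (2 * (q ^ 2) ^ L) ≤ 2 ^ m) :
    2 ^ L ≤ l.length := by
  by_contra hlt
  rw [not_le] at hlt
  have hn : 1 ≤ Fintype.card (ι × Bool) := Fintype.card_pos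
  have hQ : 1 ≤ q ^ 2 := Nat.one_le_pow _ _ hq
  have hm1 : 1 ≤ m := by
    by_contra h0
    have h0' : m = 0 := by omega
    subst h0'
    have h1 : 1 ≤ 2 ^ L * Fintype.card (ι × Bool) ^ (2 * (w * L)) :=
      Nat.one_le_iff_ne_zero.2 (by positivity)
    have h2 : 2 ≤ 2 * (q ^ 2) ^ L := by
      have : 1 ≤ (q ^ 2) ^ L := Nat.one_le_pow _ _ hQ
      omega
    have h3 := Nat.mul_le_mul h1 h2
    rw [pow_zero] at hm
    omega
  obtain ⟨badP, badN, hP, hN, happ⟩ := tapprox_prog w L m q hw hL hm1 hq hp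
  obtain ⟨lam, -, hp1, hn1⟩ := happ f hf
  -- a good positive test
  have hcolspos : 0 < tcols w L m q := by
    unfold tcols
    positivity
  have hcolcard : Fintype.card (ι × Bool → Fin (tcols w L m q)) =
      tcols w L m q ^ Fintype.card (ι × Bool) := by
    rw [Fintype.card_fun, Fintype.card_fin]
  have hgood : ∃ β : ι × Bool → Fin (tcols w L m q), β ∉ badP := by
    by_contra hcon
    push Not at hcon
    have hall : badP = univ := Finset.eq_univ_iff_forall.2 hcon
    rw [hall, card_univ, hcolcard] at hP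
    have hpw : 0 < tcols w L m q ^ Fintype.card (ι × Bool) := by positivity
    have : tcols w L m q ^ Fintype.card (ι × Bool) * (4 * 2 ^ L)
        < tcols w L m q ^ Fintype.card (ι × Bool) * (4 * 2 ^ L) := by
      calc _ ≤ l.length * tcols w L m q ^ Fintype.card (ι × Bool) := hP
        _ < 2 ^ L * tcols w L m q ^ Fintype.card (ι × Bool) := by
            exact Nat.mul_lt_mul_of_pos_right hlt hpw
        _ ≤ _ := by nlinarith
    exact lt_irrefl _ this
  obtain ⟨β, hβ⟩ := hgood
  obtain ⟨r, hrL, -, hr⟩ := hp1 β hβ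
  have hθ : θ ≤ lam r := (hpos β).trans hr
  -- a good negative test
  have hidx : ((supp r.1).image Prod.fst).card ≤ L := card_image_le.trans hrL
  have ht' : 2 * (((supp r.1).image Prod.fst).card * q ^ 2 + Fintype.card ι * m) ≤ t * q ^ 2 := by
    have := Nat.mul_le_mul_right (q ^ 2) hidx
    omega
  have hNeg := card_negT m (q ^ 2) t hm1 hQ (supp r.1) ht'
  have hOm : 0 < Fintype.card (Ot ι m (q ^ 2)) := by
    have : NeZero (q ^ 2) := ⟨by omega⟩
    have : NeZero (2 * m) := ⟨by omega⟩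
    exact Fintype.card_pos
  have hex : ∃ ω : Ot ι m (q ^ 2), ω ∉ badN ∧ (supp r.1).image Prod.fst ⊆ marked ω.2 ∧
      (marked ω.2).card ≤ t := by
    by_contra hcon
    push Not at hcon
    have hsub : (univ.filter fun ω : Ot ι m (q ^ 2) =>
        (supp r.1).image Prod.fst ⊆ marked ω.2 ∧ (marked ω.2).card ≤ t) ⊆ badN := by
      intro ω hω
      have hω2 := (mem_filter.1 hω).2
      by_contra hω'
      exact absurd hω2.2 (not_le.2 (hcon ω hω' hω2.1))
    have h1 : Fintype.card (Ot ι m (q ^ 2)) ≤ badN.card * (2 * (q ^ 2) ^ L) := by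
      calc _ ≤ _ := hNeg
        _ ≤ badN.card * (2 * (q ^ 2) ^ L) := by
            apply Nat.mul_le_mul (card_le_card hsub)
            apply Nat.mul_le_mul_left
            exact Nat.pow_le_pow_right hQ hidx
    have h2 : Fintype.card (Ot ι m (q ^ 2)) * 2 ^ m < Fintype.card (Ot ι m (q ^ 2)) * 2 ^ m := by
      calc Fintype.card (Ot ι m (q ^ 2)) * 2 ^ m ≤ badN.card * (2 * (q ^ 2) ^ L) * 2 ^ m :=
            Nat.mul_le_mul_right _ h1
        _ = badN.card * 2 ^ m * (2 * (q ^ 2) ^ L) := by ring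
        _ ≤ l.length * (Fintype.card (ι × Bool) ^ (2 * (w * L)) *
              Fintype.card (Ot ι m (q ^ 2))) * (2 * (q ^ 2) ^ L) := Nat.mul_le_mul_right _ hN
        _ = l.length * (Fintype.card (ι × Bool) ^ (2 * (w * L)) *
              Fintype.card (Ot ι m (q ^ 2)) * (2 * (q ^ 2) ^ L)) := by ring
        _ < 2 ^ L * (Fintype.card (ι × Bool) ^ (2 * (w * L)) *
              Fintype.card (Ot ι m (q ^ 2)) * (2 * (q ^ 2) ^ L)) := by
            apply Nat.mul_lt_mul_of_pos_right hlt
            positivity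
        _ = Fintype.card (Ot ι m (q ^ 2)) *
            (2 ^ L * Fintype.card (ι × Bool) ^ (2 * (w * L)) * (2 * (q ^ 2) ^ L)) := by ring
        _ ≤ Fintype.card (Ot ι m (q ^ 2)) * 2 ^ m := Nat.mul_le_mul_left _ hm
    exact lt_irrefl _ h2
  obtain ⟨ω, hω, hsup, hcard⟩ := hex
  have hsup' : supp r.1 ⊆ killed ω := fun v hv =>
    mem_killed.2 (Or.inr (hsup (mem_image.2 ⟨v, hv, rfl⟩)))
  have h1 := hn1 ω hω r (sat_bot_of_supp_subset hsup')
  exact absurd (hθ.trans h1) (not_le.2 (hneg _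
    ((card_killed ω).trans (Nat.add_le_add_left hcard _)) (killed_pair ω)))

end H50TW
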