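import Pool.Agent.H50.TW.Twist

/-! # Few critical relations for the twisted negative tests -/

set_option linter.unusedSectionVars false

open scoped Classical
open Finset H630VC

namespace H50TW

variable {ι : Type*} [Fintype ι]

theorem mem_sdiff' {α : Type*} {inst : DecidableEq α} {A B : Finset α} {v : α}
    (h : v ∈ @SDiff.sdiff _ (@Finset.instSDiff _ inst) A B) : v ∈ A ∧ v ∉ B := mem_sdiff.1 h

/-- the vertices of an item -/
noncomputable def vx (a : ι → Bool) : ι ⊕ ι → Finset (ι × Bool)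
  | Sum.inl i => {(i, a i)}
  | Sum.inr i => {(i, false), (i, true)}

theorem mem_vx_inl {a : ι → Bool} {i : ι} {v : ι × Bool} :
    v ∈ vx a (Sum.inl i) ↔ v = (i, a i) := by
  simp [vx]

theorem mem_vx_inr {a : ι → Bool} {i : ι} {v : ι × Bool} :
    v ∈ vx a (Sum.inr i) ↔ v.1 = i := by
  obtain ⟨j, b⟩ := v
  cases b <;> simp [vx]

theorem card_vx_inl (a : ι → Bool) (i : ι) : (vx a (Sum.inl i)).card = 1 := by
  simp [vx]

theorem card_vx_inr (a : ι → Bool) (i : ι) : (vx a (Sum.inr i)).card = 2 := by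
  rw [vx, card_pair]
  simp

/-- the vertices of a set of items -/
noncomputable def VV (a : ι → Bool) (T : Finset (ι ⊕ ι)) : Finset (ι × Bool) :=
  univ.filter fun v => ∃ x ∈ T, v ∈ vx a x

theorem mem_VV {a : ι → Bool} {T : Finset (ι ⊕ ι)} {v : ι × Bool} :
    v ∈ VV a T ↔ ∃ x ∈ T, v ∈ vx a x := by
  simp [VV]

/-- the size -/
noncomputable def sz (a : ι → Bool) (T : Finset (ι ⊕ ι)) : ℕ := ∑ x ∈ T, (vx a x).card

theorem card_VV_le (a : ι → Bool) (T : Finset (ι ⊕ ι)) : (VV a T).card ≤ sz a T := by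
  have h : VV a T ⊆ T.biUnion (vx a) := by
    intro v hv
    obtain ⟨x, hx, hv⟩ := mem_VV.1 hv
    exact mem_biUnion.2 ⟨x, hx, hv⟩
  exact (card_le_card h).trans card_biUnion_le

/-- the items of a set of vertices -/
noncomputable def It (a : ι → Bool) (s : Finset (ι × Bool)) : Finset (ι ⊕ ι) :=
  univ.filter fun x => (∀ v ∈ vx a x, v ∈ s) ∧ ∀ i, x = Sum.inl i → (i, !a i) ∉ s

theorem mem_It {a : ι → Bool} {s : Finset (ι × Bool)} {x : ι ⊕ ι} :
    x ∈ It a s ↔ (∀ v ∈ vx a x, v ∈ s) ∧ ∀ i, x = Sum.inl i → (i, !a i) ∉ s := by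
  simp only [It, mem_filter, mem_univ, true_and]

theorem It_unique {a : ι → Bool} {s : Finset (ι × Bool)} {x y : ι ⊕ ι} (hx : x ∈ It a s)
    (hy : y ∈ It a s) {v : ι × Bool} (hvx : v ∈ vx a x) (hvy : v ∈ vx a y) : x = y := by
  obtain ⟨h1, h2⟩ := mem_It.1 hx
  obtain ⟨h3, h4⟩ := mem_It.1 hy
  rcases x with i | i <;> rcases y with j | j
  · rw [mem_vx_inl] at hvx hvy
    rw [hvx] at hvy
    rw [(Prod.mk.inj hvy).1]
  · rw [mem_vx_inl] at hvx
    rw [mem_vx_inr, hvx] at hvy
    have h5 : i = j := hvy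
    subst h5
    exact absurd (h3 (i, !a i) (mem_vx_inr.2 rfl)) (h2 i rfl)
  · rw [mem_vx_inl] at hvy
    rw [mem_vx_inr, hvy] at hvx
    have h5 : j = i := hvx
    subst h5
    exact absurd (h1 (j, !a j) (mem_vx_inr.2 rfl)) (h4 j rfl)
  · rw [mem_vx_inr] at hvx hvy
    rw [← hvx, ← hvy]

theorem VV_subset {a : ι → Bool} {s : Finset (ι × Bool)} {T : Finset (ι ⊕ ι)}
    (hT : T ⊆ It a s) : VV a T ⊆ s := by
  intro v hv
  obtain ⟨x, hx, hv⟩ := mem_VV.1 hv
  exact (mem_It.1 (hT hx)).1 v hv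

theorem card_VV {a : ι → Bool} {s : Finset (ι × Bool)} {T : Finset (ι ⊕ ι)}
    (hT : T ⊆ It a s) : (VV a T).card = sz a T := by
  have h : VV a T = T.biUnion (vx a) := by
    ext v
    rw [mem_VV, mem_biUnion]
  rw [h, card_biUnion]
  · rfl
  · intro x hx y hy hxy
    show Disjoint (vx a x) (vx a y)
    rw [Finset.disjoint_left]
    intro v hv hv'
    exact hxy (It_unique (hT hx) (hT hy) hv hv')

theorem sz_le {a : ι → Bool} {s : Finset (ι × Bool)} {T : Finset (ι ⊕ ι)}
    (hT : T ⊆ It a s) : sz a T ≤ s.card := by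
  rw [← card_VV hT]
  exact card_le_card (VV_subset hT)

theorem card_le_sz (a : ι → Bool) (T : Finset (ι ⊕ ι)) : T.card ≤ sz a T := by
  rw [card_eq_sum_ones, sz]
  refine sum_le_sum fun x _ => ?_
  rcases x with i | i
  · rw [card_vx_inl]
  · rw [card_vx_inr]
    norm_num

/-- the single vertices are on the right side -/
def Al (a : ι → Bool) (s : Finset (ι × Bool)) : Prop := ∀ i, (i, !a i) ∈ s → (i, a i) ∈ s

theorem exists_It {a : ι → Bool} {s : Finset (ι × Bool)} (h : Al a s) {v : ι × Bool}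
    (hv : v ∈ s) : ∃ x ∈ It a s, v ∈ vx a x := by
  obtain ⟨i, b⟩ := v
  by_cases h1 : (i, !a i) ∈ s
  · refine ⟨Sum.inr i, mem_It.2 ⟨?_, ?_⟩, mem_vx_inr.2 rfl⟩
    · rintro ⟨j, c⟩ hw
      have h2 : j = i := mem_vx_inr.1 hw
      subst h2
      by_cases h3 : c = a j
      · rw [h3]
        exact h j h1
      · have h4 : c = !a j := by
          cases c <;> cases h5 : a j <;> simp_all
        rw [h4]
        exact h1
    · intro j hj
      exact absurd hj (by simp)
  · have h3 : b = a i := by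
      by_contra h4
      have h5 : b = !a i := by
        cases b <;> cases h6 : a i <;> simp_all
      rw [h5] at hv
      exact h1 hv
    refine ⟨Sum.inl i, mem_It.2 ⟨?_, ?_⟩, mem_vx_inl.2 (by rw [h3])⟩
    · intro w hw
      rw [mem_vx_inl.1 hw, ← h3]
      exact hv
    · intro j hj
      rw [Sum.inl.injEq] at hj
      subst hj
      exact h1

/-- many orientations are aligned -/
theorem card_al (s : Finset (ι × Bool)) :
    2 ^ Fintype.card ι ≤ (univ.filter fun a : ι → Bool => Al a s).card * 2 ^ s.card := by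
  have h1 : (univ.filter fun a : ι → Bool => Al a s) =
      Fintype.piFinset (fun i => univ.filter fun b => (i, !b) ∈ s → (i, b) ∈ s) := by
    ext a
    rw [mem_filter, Fintype.mem_piFinset]
    exact ⟨fun h i => mem_filter.2 ⟨mem_univ _, h.2 i⟩,
      fun h => ⟨mem_univ _, fun i => (mem_filter.1 (h i)).2⟩⟩
  have h2 : s.card = ∑ i : ι, (s.filter fun v => v.1 = i).card :=
    card_eq_sum_card_fiberwise fun v _ => mem_coe.2 (mem_univ _)
  rw [h1, Fintype.card_piFinset, h2, ← prod_pow_eq_pow_sum, ← prod_mul_distrib, Fintype.card,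
    ← prod_const]
  refine prod_le_prod' fun i _ => ?_
  by_cases h3 : ∃ b, (i, b) ∈ s
  · obtain ⟨b, hb⟩ := h3
    have h4 : 1 ≤ (s.filter fun v => v.1 = i).card :=
      card_pos.2 ⟨(i, b), mem_filter.2 ⟨hb, rfl⟩⟩
    have h5 : 1 ≤ (univ.filter fun b => (i, !b) ∈ s → (i, b) ∈ s).card := by
      refine card_pos.2 ?_
      by_cases h6 : (i, true) ∈ s
      · exact ⟨true, mem_filter.2 ⟨mem_univ _, fun _ => h6⟩⟩
      · exact ⟨false, mem_filter.2 ⟨mem_univ _, fun h7 => absurd h7 h6⟩⟩
    calc 2 = 1 * 2 ^ 1 := by norm_num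
      _ ≤ _ := Nat.mul_le_mul h5 (Nat.pow_le_pow_right (by norm_num) h4)
  · have h5 : (univ.filter fun b => (i, !b) ∈ s → (i, b) ∈ s) = univ := by
      refine filter_true_of_mem fun b _ h6 => absurd ⟨_, h6⟩ h3
    rw [h5, card_univ, Fintype.card_bool]
    exact Nat.le_mul_of_pos_right 2 (Nat.pos_of_ne_zero (by positivity))

theorem exists_al {κ : Type*} (M : Finset κ) (s : κ → Finset (ι × Bool)) (j : ℕ)
    (hs : ∀ r ∈ M, (s r).card ≤ j) :
    ∃ a : ι → Bool, M.card ≤ (M.filter fun r => Al a (s r)).card * 2 ^ j := by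
  by_contra hcon
  push Not at hcon
  have h1 : ∑ a : ι → Bool, (M.filter fun r => Al a (s r)).card * 2 ^ j <
      ∑ _a : ι → Bool, M.card := by
    refine sum_lt_sum_of_nonempty ⟨fun _ => true, mem_univ _⟩ fun a _ => hcon a
  have h2 : ∑ a : ι → Bool, (M.filter fun r => Al a (s r)).card =
      ∑ r ∈ M, (univ.filter fun a : ι → Bool => Al a (s r)).card := by
    simp_rw [card_filter]
    exact sum_comm
  rw [← sum_mul, h2, sum_mul, sum_const, card_univ, Fintype.card_fun, Fintype.card_bool,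
    smul_eq_mul] at h1
  have h3 : ∑ _r ∈ M, 2 ^ Fintype.card ι ≤
      ∑ r ∈ M, (univ.filter fun a : ι → Bool => Al a (s r)).card * 2 ^ j := by
    refine sum_le_sum fun r hr => (card_al (s r)).trans ?_
    exact Nat.mul_le_mul_left _ (Nat.pow_le_pow_right (by norm_num) (hs r hr))
  rw [sum_const, smul_eq_mul, mul_comm] at h3
  omega

/-- closed level functions for the twisted negative tests -/
def TClosed (ι : Type*) [Fintype ι] (m Q l : ℕ) (lam : Small (ι × Bool) l → ℝ) : Prop :=
  ∀ (r0 : Small (ι × Bool) l) (θ : ℝ),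
    (univ.filter fun ω : Ot ι m Q =>
      ¬ ∃ r : Small (ι × Bool) l, Sat (killed ω) r0.1 r.1 ∧ θ ≤ lam r).card
      * 2 ^ m ≤ Fintype.card (Ot ι m Q) → θ ≤ lam r0

theorem tcard_crit (l m q : ℕ) (hl : 1 ≤ l) (hm : 1 ≤ m) (hq : 1 ≤ q)
    (lam : Small (ι × Bool) l → ℝ) (hc : TClosed ι m (q ^ 2) l lam) (j : ℕ) (hj : j ≤ l) :
    (univ.filter fun r : Small (ι × Bool) l => Crit lam r ∧ (supp r.1).card = j).card
      ≤ (2 * (4 * l * (l + 1) * (2 * m * q))) ^ j := by
  by_contra hcon
  push Not at hcon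
  set K : ℕ := 4 * l * (l + 1) * (2 * m * q) with hK
  have hK1 : 1 ≤ K := by
    rw [hK]
    have : 0 < 4 * l * (l + 1) * (2 * m * q) := by positivity
    exact this
  set M0 : Finset (Small (ι × Bool) l) :=
    univ.filter fun r : Small (ι × Bool) l => Crit lam r ∧ (supp r.1).card = j with hM0
  obtain ⟨a, ha⟩ := exists_al M0 (fun r => supp r.1) j
    (fun r hr => (mem_filter.1 hr).2.2.le)
  set M : Finset (Small (ι × Bool) l) := M0.filter fun r => Al a (supp r.1) with hM
  have hMbig : K ^ j < M.card := by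
    have h1 := hcon.trans_le ha
    rw [mul_pow, mul_comm] at h1
    exact lt_of_mul_lt_mul_right h1 (Nat.zero_le _)
  let F : Finset (ι ⊕ ι) × Setoid (ι × Bool) → Finset (Small (ι × Bool) l) := fun p =>
    M.filter fun r => p.1 ⊆ It a (supp r.1) ∧ restr (VV a p.1) r.1 = p.2
  obtain ⟨⟨T, U⟩, -, hmax⟩ := Finset.exists_max_image
    (univ : Finset (Finset (ι ⊕ ι) × Setoid (ι × Bool)))
    (fun p => (F p).card * K ^ sz a p.1) ⟨(∅, ⊥), mem_univ _⟩
  have hVV0 : VV a ∅ = ∅ := by
    ext v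
    simp [mem_VV]
  have hF0 : F (∅, ⊥) = M := by
    refine Finset.filter_true_of_mem fun r _ => ⟨empty_subset _, ?_⟩
    show restr (VV a ∅) r.1 = ⊥
    rw [hVV0]
    ext u v
    constructor
    · rintro (h | h)
      · exact h
      · exact absurd h.1 (notMem_empty _)
    · intro h
      exact Or.inl h
  set G : Finset (Small (ι × Bool) l) := F (T, U) with hG
  have hbig : K ^ j < G.card * K ^ sz a T := by
    have h := hmax (∅, ⊥) (mem_univ _)
    simp only [hF0, sz, sum_empty, pow_zero, mul_one] at h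
    exact hMbig.trans_le h
  have hmemG : ∀ r ∈ G, Crit lam r ∧ (supp r.1).card = j ∧ Al a (supp r.1) ∧
      T ⊆ It a (supp r.1) ∧ restr (VV a T) r.1 = U := by
    intro r hr
    have h1 := Finset.mem_filter.1 hr
    have h2 := Finset.mem_filter.1 h1.1
    have h3 := Finset.mem_filter.1 h2.1
    exact ⟨h3.2.1, h3.2.2, h2.2, h1.2.1, h1.2.2⟩
  have hne : G.Nonempty := by
    rw [Finset.nonempty_iff_ne_empty]
    intro h
    rw [h, card_empty, zero_mul] at hbig
    omega
  obtain ⟨r1, hr1⟩ := hne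
  have hTj : sz a T ≤ j := by
    have h := hmemG r1 hr1
    rw [← h.2.1]
    exact sz_le h.2.2.2.1
  have hG2 : 1 < G.card := by
    by_contra h
    push Not at h
    have h1 : G.card * K ^ sz a T ≤ 1 * K ^ j :=
      Nat.mul_le_mul h (Nat.pow_le_pow_right hK1 hTj)
    omega
  have hTlt : sz a T < j := by
    refine lt_of_le_of_ne hTj fun hZ => ?_
    have huniq : ∀ r ∈ G, r.1 = U := by
      intro r hr
      have h := hmemG r hr
      have h1 : VV a T = supp r.1 := Finset.eq_of_subset_of_card_le (VV_subset h.2.2.2.1)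
        (by rw [h.2.1, card_VV h.2.2.2.1, hZ])
      rw [← h.2.2.2.2]
      exact (restr_eq_self (by rw [← h1])).symm
    obtain ⟨x, hx, y, hy, hxy⟩ := Finset.one_lt_card.1 hG2
    exact hxy (Subtype.ext ((huniq x hx).trans (huniq y hy).symm))
  -- the spread hypothesis
  have hspread : Spread (qq ι m (q ^ 2)) l G (fun r => It a (supp r.1) \ T) := by
    refine Spread.of fun Y H hH => ?_
    rcases H.eq_empty_or_nonempty with h0 | ⟨r2, hr2⟩
    · rw [h0, card_empty, zero_mul]
      exact Nat.zero_le _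
    have hr2' := hH r2 hr2
    have hr2G := hmemG r2 hr2'.1
    have hdisj : Disjoint T Y := by
      rw [Finset.disjoint_left]
      intro v hv hv'
      exact (mem_sdiff.1 (hr2'.2 hv')).2 hv
    have hTYs : T ∪ Y ⊆ It a (supp r2.1) :=
      union_subset hr2G.2.2.2.1 fun v hv => (mem_sdiff.1 (hr2'.2 hv)).1
    have hTY : sz a (T ∪ Y) = sz a T + sz a Y := by
      unfold sz
      exact sum_union hdisj
    have hTYj : sz a (T ∪ Y) ≤ l := (sz_le hTYs).trans (hr2G.2.1.le.trans hj)
    have hVU : ∀ inst : DecidableEq (ι × Bool),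
        @Union.union _ (@Finset.instUnion _ inst) (VV a T) (VV a Y) = VV a (T ∪ Y) := by
      intro inst
      ext v
      rw [mem_union, mem_VV, mem_VV, mem_VV]
      constructor
      · rintro (⟨x, hx, h⟩ | ⟨x, hx, h⟩)
        · exact ⟨x, mem_union_left _ hx, h⟩
        · exact ⟨x, mem_union_right _ hx, h⟩
      · rintro ⟨x, hx, h⟩
        rcases mem_union.1 hx with hx | hx
        · exact Or.inl ⟨x, hx, h⟩
        · exact Or.inr ⟨x, hx, h⟩
    have himg : (H.image fun r => restr (VV a (T ∪ Y)) r.1).card ≤ (l + 1) ^ sz a Y := by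
      have h1 := card_image_restr (H.image Subtype.val) (VV a T) U (by
        intro r hr
        obtain ⟨r', hr', rfl⟩ := mem_image.1 hr
        exact (hmemG r' (hH r' hr').1).2.2.2.2) (VV a Y)
      rw [Finset.image_image, hVU] at h1
      have h2 : (VV a (T ∪ Y)).card ≤ l := (card_VV_le _ _).trans hTYj
      refine le_trans (le_trans (le_of_eq ?_) h1) ?_
      · rfl
      · refine (Nat.pow_le_pow_left (by omega) _).trans (Nat.pow_le_pow_right (by omega) ?_)
        exact (card_le_card fun v hv => (mem_sdiff' hv).1).trans (card_VV_le _ _)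
    have hfib : ∀ W ∈ H.image (fun r => restr (VV a (T ∪ Y)) r.1),
        (H.filter fun r => restr (VV a (T ∪ Y)) r.1 = W).card ≤ G.card / K ^ sz a Y := by
      intro W _
      rw [Nat.le_div_iff_mul_le (by positivity)]
      have h1 : (H.filter fun r => restr (VV a (T ∪ Y)) r.1 = W) ⊆ F (T ∪ Y, W) := by
        intro r hr
        have h2 := Finset.mem_filter.1 hr
        have h3 := hH r h2.1
        have h4 := Finset.mem_filter.1 h3.1
        refine Finset.mem_filter.2 ⟨h4.1, union_subset h4.2.1 fun v hv =>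
          (mem_sdiff.1 (h3.2 hv)).1, h2.2⟩
      have h2 := hmax (T ∪ Y, W) (mem_univ _)
      simp only [hTY, pow_add] at h2
      have h3 : (F (T ∪ Y, W)).card * K ^ sz a Y ≤ G.card := by
        have h4 : ((F (T ∪ Y, W)).card * K ^ sz a Y) * K ^ sz a T ≤ G.card * K ^ sz a T := by
          calc _ = (F (T ∪ Y, W)).card * (K ^ sz a T * K ^ sz a Y) := by ring
            _ ≤ _ := h2
        exact Nat.le_of_mul_le_mul_right h4 (by positivity)
      exact (Nat.mul_le_mul_right _ (card_le_card h1)).trans h3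
    have h5 := Finset.card_le_mul_card_image H (G.card / K ^ sz a Y) hfib
    have h6 : ∏ v ∈ Y, (4 * l * qq ι m (q ^ 2) v) ≤ (4 * l * (2 * m * q)) ^ sz a Y := by
      rw [sz, ← prod_pow_eq_pow_sum]
      refine prod_le_prod' fun x _ => ?_
      rcases x with i | i
      · rw [card_vx_inl, pow_one]
        show 4 * l * (2 * m) ≤ 4 * l * (2 * m * q)
        exact Nat.mul_le_mul_left _ (Nat.le_mul_of_pos_right _ hq)
      · rw [card_vx_inr]
        show 4 * l * q ^ 2 ≤ (4 * l * (2 * m * q)) ^ 2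
        calc 4 * l * q ^ 2 ≤ (4 * l) ^ 2 * (2 * m * q) ^ 2 :=
              Nat.mul_le_mul (Nat.le_self_pow two_ne_zero _)
                (Nat.pow_le_pow_left (Nat.le_mul_of_pos_left q (by positivity)) 2)
          _ = _ := (mul_pow _ _ _).symm
    calc H.card * ∏ v ∈ Y, (4 * l * qq ι m (q ^ 2) v)
        ≤ (G.card / K ^ sz a Y * (l + 1) ^ sz a Y) * (4 * l * (2 * m * q)) ^ sz a Y :=
          Nat.mul_le_mul (h5.trans (Nat.mul_le_mul_left _ himg)) h6
      _ = G.card / K ^ sz a Y * K ^ sz a Y := by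
          rw [mul_assoc, ← mul_pow]
          congr 2
          rw [hK]
          ring
      _ ≤ G.card := Nat.div_mul_le_self _ _
  have hcardS : ∀ r ∈ G, (It a (supp r.1) \ T).card ≤ l := by
    intro r hr
    have h := hmemG r hr
    calc _ ≤ (It a (supp r.1)).card := card_le_card sdiff_subset
      _ ≤ sz a (It a (supp r.1)) := card_le_sz _ _
      _ ≤ (supp r.1).card := sz_le (Finset.Subset.refl _)
      _ ≤ l := by rw [h.2.1]; exact hj
  have hdom := dominate m (q ^ 2) l hm (Nat.one_le_pow _ _ hq) hl G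
    (fun r => (supp r.1).filter fun v => v ∉ VV a T) (fun r => It a (supp r.1) \ T) a (by
      intro r hr v hv
      have h := hmemG r hr
      obtain ⟨hv1, hv2⟩ := mem_filter.1 hv
      obtain ⟨x, hx, hvx⟩ := exists_It h.2.2.1 hv1
      have hxT : x ∉ T := fun hxT => hv2 (mem_VV.2 ⟨x, hxT, hvx⟩)
      have hx' := mem_sdiff.2 ⟨hx, hxT⟩
      rcases x with i | i
      · have h3 := mem_vx_inl.1 hvx
        right
        rw [h3]
        exact ⟨hx', rfl⟩
      · have h3 := mem_vx_inr.1 hvx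
        left
        rw [h3]
        exact hx') ⟨r1, hr1⟩ hcardS hspread
  obtain ⟨rs, hrs, hmin⟩ := Finset.exists_min_image G lam ⟨r1, hr1⟩
  have hrsG := hmemG rs hrs
  have hUsupp : supp U ⊆ VV a T := by
    rw [← hrsG.2.2.2.2]
    exact supp_restr_subset _ _
  have hUcard : (supp U).card ≤ sz a T := (card_le_card hUsupp).trans (card_VV_le _ _)
  let U' : Small (ι × Bool) l := ⟨U, by omega⟩
  have hsub : (univ.filter fun ω : Ot ι m (q ^ 2) => ¬ ∃ r : Small (ι × Bool) l,
      Sat (killed ω) U r.1 ∧ lam rs ≤ lam r) ⊆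
      badR ι m (q ^ 2) G (fun r => (supp r.1).filter fun v => v ∉ VV a T) := by
    intro ω hω
    refine mem_badR.2 fun r hr hS => (mem_filter.1 hω).2 ⟨r, ?_, hmin r hr⟩
    have h := hmemG r hr
    have h2 : Sat (killed ω) (restr (VV a T) r.1) r.1 := sat_restr (by
      intro v hv
      obtain ⟨hv1, hv2⟩ := mem_sdiff' hv
      exact hS (mem_filter.2 ⟨hv1, hv2⟩))
    rw [h.2.2.2.2] at h2
    exact h2
  have hle : lam rs ≤ lam U' := by
    refine hc U' (lam rs) ?_
    exact le_trans (Nat.mul_le_mul_right _ (card_le_card hsub)) hdom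
  have hlt : lam U' < lam rs := by
    refine hrsG.1 U' ?_ ?_
    · change U ≤ rs.1
      rw [← hrsG.2.2.2.2]
      exact restr_le _ _
    · intro h
      have h1 : (supp rs.1).card = (supp U).card := by rw [← h]
      rw [hrsG.2.1] at h1
      omega
  linarith

end H50TW
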