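import Pool.Agent.H50.TW.TCore
import Pool.Agent.H50.CP.Matched

/-! # Lower bounds for the length of arguments which use the perfect matching -/

open scoped Classical
open Finset H630VC H50CP

namespace H50TW

/-- the vertices as pairs -/
def sw (n : ℕ) : Fin n ⊕ Fin n ≃ Fin n × Bool where
  toFun := Sum.elim (fun i => (i, false)) (fun i => (i, true))
  invFun p := if p.2 = true then Sum.inr p.1 else Sum.inl p.1
  left_inv := by
    rintro (i | i) <;> simp
  right_inv := by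
    rintro ⟨i, b⟩
    cases b <;> simp

/-- the positive tests -/
def twG {n B : ℕ} (β : Fin n × Bool → Fin B) : SimpleGraph (Fin n ⊕ Fin n) :=
  (posG β).comap (sw n)

theorem twG_adj {n B : ℕ} {β : Fin n × Bool → Fin B} {u v : Fin n ⊕ Fin n} :
    (twG β).Adj u v ↔ (posG β).Adj (sw n u) (sw n v) := Iff.rfl

theorem twG_mem {n B : ℕ} (β : Fin n × Bool → Fin B) : twG β ∈ pmGraphs n := by
  intro i
  refine twG_adj.2 ⟨?_, Or.inl rfl⟩
  intro h
  exact absurd (congrArg Prod.snd h) (by simp [sw])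

theorem twG_class {n B : ℕ} (β : Fin n × Bool → Fin B) {u v : Fin n ⊕ Fin n} (h : u ≠ v)
    (h' : β (sw n u) = β (sw n v)) : (twG β).Adj u v :=
  twG_adj.2 ⟨fun e => h ((sw n).injective e), Or.inr h'⟩

theorem card_cover_twG {n B : ℕ} (β : Fin n × Bool → Fin B) (C : Finset (Fin n ⊕ Fin n))
    (hC : IsCover (twG β) C) : 2 * n ≤ C.card + B := by
  have h := card_cover_classGraph (fun u => β (sw n u)) C fun u v huv =>
    hC u v (twG_class β huv.1 huv.2)
  rw [Fintype.card_sum, Fintype.card_fin] at h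
  omega

/-- the number of rounds -/
abbrev MM (n L w : ℕ) : ℕ := 8 * (w * L) * (Nat.log 2 n + 1)

theorem tcols_le (n L w q : ℕ) (hL : 1 ≤ L) (hw : 1 ≤ w) :
    tcols w L (MM n L w) q ≤ 2 ^ 20 * (w * L) ^ 6 * (Nat.log 2 n + 1) ^ 2 * q ^ 2 := by
  unfold tcols
  have hwL : 1 ≤ w * L := Nat.mul_pos hw hL
  have e1 : 4 * (2 * (4 * (w * L) * (w * L + 1) * (2 * MM n L w * q))) ≤
      128 * (w * L) ^ 2 * (MM n L w * q) := by
    have : 4 * (2 * (4 * (w * L) * (w * L + 1) * (2 * MM n L w * q)))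
        = (64 * (w * L) ^ 2 + 64 * (w * L)) * (MM n L w * q) := by
      ring
    rw [this]
    apply Nat.mul_le_mul_right
    nlinarith
  calc _ ≤ (128 * (w * L) ^ 2 * (MM n L w * q)) ^ 2 := Nat.pow_le_pow_left e1 2
    _ = 2 ^ 20 * (w * L) ^ 6 * (Nat.log 2 n + 1) ^ 2 * q ^ 2 := by
        unfold MM
        ring

/-- the core lower bound with parameters -/
theorem tcore_params (n L q t w : ℕ) (hn : 1 ≤ n) (hL : 2 ≤ L) (hq : 1 ≤ q) (hw : 1 ≤ w)
    (h1 : 4 * n * MM n L w ≤ t * q ^ 2) (h2 : 4 * L ≤ t) (h3 : q ^ 2 ≤ n)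
    {l : List (SimpleGraph (Fin n × Bool) → ℝ)}
    (hp : WProg w (graphInputs (Fin n × Bool)) l)
    {f : SimpleGraph (Fin n × Bool) → ℝ} (hf : f ∈ l) (θ : ℝ)
    (hpos : ∀ β : Fin n × Bool → Fin (tcols w L (MM n L w) q), θ ≤ f (posG β))
    (hneg : ∀ T : Finset (Fin n × Bool), T.card ≤ Fintype.card (Fin n) + t →
      (∀ i, (i, false) ∈ T ∨ (i, true) ∈ T) → f (touchGraph T) < θ) : 2 ^ L ≤ l.length := by
  have : Nonempty (Fin n) := ⟨⟨0, hn⟩⟩
  set lam := Nat.log 2 n + 1 with hlam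
  have hnlam : n ≤ 2 ^ lam := (Nat.lt_pow_succ_log_self (by norm_num) n).le
  have hlam1 : 1 ≤ lam := by omega
  have hMM : MM n L w = 8 * (w * L * lam) := by
    unfold MM
    ring
  refine tcore w L (MM n L w) q t hw hL hq hp hf θ hpos hneg ?_ ?_
  · rw [Fintype.card_fin]
    have e1 : 4 * (L * q ^ 2) ≤ t * q ^ 2 := by
      calc 4 * (L * q ^ 2) = 4 * L * q ^ 2 := by ring
        _ ≤ t * q ^ 2 := Nat.mul_le_mul_right _ h2
    have e2 : 4 * (n * MM n L w) ≤ t * q ^ 2 := by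
      calc 4 * (n * MM n L w) = 4 * n * MM n L w := by ring
        _ ≤ _ := h1
    omega
  · rw [Fintype.card_prod, Fintype.card_fin, Fintype.card_bool]
    have e0 : n * 2 ≤ 2 ^ (lam + 1) := by
      rw [pow_succ]
      exact Nat.mul_le_mul_right _ hnlam
    have e1 : (n * 2) ^ (2 * (w * L)) ≤ 2 ^ (2 * (w * L) * (lam + 1)) := by
      calc (n * 2) ^ (2 * (w * L)) ≤ (2 ^ (lam + 1)) ^ (2 * (w * L)) :=
            Nat.pow_le_pow_left e0 _
        _ = 2 ^ (2 * (w * L) * (lam + 1)) := by rw [← pow_mul]; ring_nf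
    have e2 : (q ^ 2) ^ L ≤ 2 ^ (L * lam) := by
      calc (q ^ 2) ^ L ≤ (2 ^ lam) ^ L := Nat.pow_le_pow_left (h3.trans hnlam) _
        _ = 2 ^ (L * lam) := by rw [← pow_mul]; ring_nf
    calc 2 ^ L * (n * 2) ^ (2 * (w * L)) * (2 * (q ^ 2) ^ L)
        ≤ 2 ^ L * 2 ^ (2 * (w * L) * (lam + 1)) * (2 * 2 ^ (L * lam)) := by
          gcongr
      _ = 2 ^ (L + 2 * (w * L) * (lam + 1) + (1 + L * lam)) := by
          rw [pow_add, pow_add, pow_add]; ring
      _ ≤ 2 ^ MM n L w := by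
          apply Nat.pow_le_pow_right (by norm_num)
          rw [hMM]
          have g1 : L ≤ w * L := Nat.le_mul_of_pos_left L hw
          have g2 : L * lam ≤ w * L * lam := Nat.mul_le_mul_right _ g1
          have g3 : L ≤ L * lam := Nat.le_mul_of_pos_right L hlam1
          have g4 : w * L ≤ w * L * lam := Nat.le_mul_of_pos_right _ hlam1
          have g5 : 2 * (w * L) * (lam + 1) = 2 * (w * L * lam) + 2 * (w * L) := by ring
          rw [g5]
          omega

/-- lower bound for graphs with a perfect matching, explicit -/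
theorem lower_tw {X : Type*} {n L q t w D : ℕ} {Γ : X → SimpleGraph (Fin n ⊕ Fin n)}
    {𝓒 : Set (Finset (Fin n ⊕ Fin n))} (hn : 1 ≤ n) (hL : 2 ≤ L) (hq : 1 ≤ q) (hw : 1 ≤ w)
    (hD : 1 ≤ D)
    (h1 : 4 * n * MM n L (w * D) ≤ t * q ^ 2) (h2 : 4 * L ≤ t) (h3 : q ^ 2 ≤ n)
    (ξ : (Fin n × Bool → Fin (tcols (w * D) L (MM n L (w * D)) q)) → X)
    (hξ : ∀ β, Γ (ξ β) = twG β)
    (h𝓒 : ∀ T : Finset (Fin n ⊕ Fin n), T.card ≤ n + t → T ∈ 𝓒)
    {l : List (Finset (Comparison X (Fin n ⊕ Fin n)))} (hl : Argument Γ 𝓒 w D l)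
    (hno : ∃ b ∈ l, ∀ β, ∀ T : Finset (Fin n ⊕ Fin n), T.card ≤ n + t →
      ∃ c ∈ b, ¬ c.Holds (ξ β) T) :
    2 ^ L ≤ D * l.length + 1 := by
  have hwD : 1 ≤ w * D := Nat.mul_pos hw hD
  have hMM : 0 < MM n L (w * D) := by
    unfold MM
    positivity
  have hc : 0 < tcols (w * D) L (MM n L (w * D)) q := by
    unfold tcols
    positivity
  have : Nonempty (Fin (tcols (w * D) L (MM n L (w * D)) q)) := ⟨⟨0, hc⟩⟩
  have hT : ∀ T : {T : Finset (Fin n × Bool) // T.card ≤ Fintype.card (Fin n) + t ∧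
      ∀ i, (i, false) ∈ T ∨ (i, true) ∈ T}, (T.1.map (sw n).symm.toEmbedding).card ≤ n + t := by
    intro T
    rw [card_map]
    exact T.2.1.trans_eq (by rw [Fintype.card_fin])
  obtain ⟨b, hb, hb'⟩ := hno
  obtain ⟨l', g1, g2, f, hf, θ, g3, g4⟩ := toProg_separates (graphInputs (Fin n × Bool))
    (fun β : Fin n × Bool → Fin (tcols (w * D) L (MM n L (w * D)) q) => posG β)
    (fun T : {T : Finset (Fin n × Bool) // T.card ≤ Fintype.card (Fin n) + t ∧
      ∀ i, (i, false) ∈ T ∨ (i, true) ∈ T} => touchGraph T.1) ξ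
    (fun T => T.1.map (sw n).symm.toEmbedding) (fun T => h𝓒 _ (hT T)) hD hw
    (fun u v => edgeBit (sw n u) (sw n v))
    (fun u v => Or.inl ⟨sw n u, sw n v, rfl⟩)
    (by
      intro u v β T h hadj
      have hadj' : (posG β).Adj (sw n u) (sw n v) := by
        rw [hξ] at hadj
        exact hadj
      simp only [edgeBit, hadj', if_true] at h
      have h5 : (touchGraph T.1).Adj (sw n u) (sw n v) := by
        by_contra hcon
        rw [if_neg hcon] at h
        linarith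
      rcases h5.2 with h6 | h6
      · exact Or.inl (mem_map_equiv.2 h6)
      · exact Or.inr (mem_map_equiv.2 h6)) hl ⟨b, hb, fun β T => hb' β _ (hT T)⟩
  exact (tcore_params n L q t (w * D) hn hL hq hwD h1 h2 h3 g1 hf θ g3
    (fun T hT1 hT2 => g4 ⟨T, hT1, hT2⟩)).trans g2

end H50TW
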