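import Pool.Agent.H50.TW.TAsymp

/-! # Graphs with a given maximal matching: the ratio `2 - n ^ (η - 1/2)` -/

open scoped Classical
open Finset H630VC H50CP

namespace H50TW

theorem rpow_seven {n x : ℕ} {a b : ℝ} (hn : 1 ≤ n) (hx : (x : ℝ) ≤ (n : ℝ) ^ b) :
    (n : ℝ) ^ a * (x : ℝ) ^ 7 ≤ (n : ℝ) ^ (a + 7 * b) := by
  have hn0 : (0 : ℝ) < n := by exact_mod_cast hn
  have h1 : (x : ℝ) ^ 7 ≤ ((n : ℝ) ^ b) ^ 7 := pow_le_pow_left₀ (by positivity) hx 7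
  have h2 : ((n : ℝ) ^ b) ^ 7 = (n : ℝ) ^ (7 * b) := by
    rw [← Real.rpow_natCast, ← Real.rpow_mul hn0.le]
    congr 1
    push_cast
    ring
  rw [Real.rpow_add hn0, ← h2]
  exact mul_le_mul_of_nonneg_left h1 (by positivity)

/-- the parameters for ratios close to `2` -/
theorem ratio_params_tw (η : ℝ) (hη : 0 < η) (hη2 : η ≤ 1 / 2) :
    ∃ N : ℕ, ∀ n : ℕ, N ≤ n → ∃ t k : ℕ, t ≤ n ∧ k ≤ n ∧
      (2 - (n : ℝ) ^ (η - 1 / 2)) * ((n + t : ℕ) : ℝ) < 2 * n - k ∧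
      (n : ℝ) ^ (1 + 15 / 8 * η) ≤ t * k := by
  obtain ⟨N1, hN1⟩ := eventually_rpow 64 (η / 8) (by positivity)
  obtain ⟨N2, hN2⟩ := eventually_rpow 8 (1 / 2 + η) (by positivity)
  refine ⟨max (max N1 N2) 1, fun n hn => ?_⟩
  have g1 := hN1 n (((le_max_left _ _).trans (le_max_left _ _)).trans hn)
  have g2 := hN2 n (((le_max_right _ _).trans (le_max_left _ _)).trans hn)
  have hn1' : 1 ≤ n := (le_max_right _ _).trans hn
  have hn1 : (1 : ℝ) ≤ n := by exact_mod_cast hn1'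
  have hnpos : (0 : ℝ) < n := by linarith
  set X : ℝ := (n : ℝ) ^ (1 / 2 + η) with hX
  have hXn : X ≤ n := by
    calc X ≤ (n : ℝ) ^ (1 : ℝ) := Real.rpow_le_rpow_of_exponent_le hn1 (by linarith)
      _ = n := Real.rpow_one _
  set δ : ℝ := (n : ℝ) ^ (η - 1 / 2) with hδ
  have hδpos : 0 < δ := Real.rpow_pos_of_pos hnpos _
  have hδ1 : δ ≤ 1 := Real.rpow_le_one_of_one_le_of_nonpos hn1 (by linarith)
  have hδX : δ * n = X := by
    rw [hδ, hX]
    nth_rewrite 2 [← Real.rpow_one (n : ℝ)]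
    rw [← Real.rpow_add hnpos]
    congr 1
    ring
  set t : ℕ := ⌊X / 4⌋₊ with ht
  have ht_le : (t : ℝ) ≤ X / 4 := Nat.floor_le (by linarith)
  have ht_ge : X / 8 ≤ t := by
    have h1 := Nat.lt_floor_add_one (X / 4)
    rw [← ht] at h1
    linarith
  have htn : t ≤ n := by
    have : (t : ℝ) ≤ n := by linarith
    exact_mod_cast this
  refine ⟨t, t, htn, htn, ?_, ?_⟩
  · push_cast
    have h0 : (0 : ℝ) ≤ t := Nat.cast_nonneg _
    have h1 : 0 ≤ δ * t := by positivity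
    nlinarith
  · have h2 : (X / 8) * (X / 8) ≤ (t : ℝ) * t := by
      have : 0 ≤ X / 8 := by linarith
      exact mul_le_mul ht_ge ht_ge this (by positivity)
    have h5 : X * X = (n : ℝ) ^ (1 + 15 / 8 * η) * (n : ℝ) ^ (η / 8) := by
      rw [hX, ← Real.rpow_add hnpos, ← Real.rpow_add hnpos]
      congr 1
      ring
    calc (n : ℝ) ^ (1 + 15 / 8 * η) = (n : ℝ) ^ (1 + 15 / 8 * η) * 64 / 64 := by ring
      _ ≤ (n : ℝ) ^ (1 + 15 / 8 * η) * (n : ℝ) ^ (η / 8) / 64 := by gcongr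
      _ = (X / 8) * (X / 8) := by rw [← h5]; ring
      _ ≤ _ := h2

/-- no ratio below `2 - n ^ (η - 1/2)` has short proofs -/
theorem ratio_matched (η : ℝ) (hη : 0 < η) (hη2 : η ≤ 1 / 2) : ∃ N : ℕ, ∀ n : ℕ, N ≤ n →
    ∀ (V : Type) (φ : Fin n ⊕ Fin n ↪ V) (w D : ℕ), 1 ≤ w →
      ((w * D : ℕ) : ℝ) ≤ (n : ℝ) ^ (η / 8) → ∀ A, UpperBound (matched φ) A →
      ∀ ρ : ℝ, ρ ≤ 2 - (n : ℝ) ^ (η - 1 / 2) → ∀ l, ProvesRatio (matched φ) w D A ρ l →
        (2 : ℝ) ^ ((n : ℝ) ^ (η / 8)) ≤ D * l.length := by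
  obtain ⟨N1, hN1⟩ := asymp_gen η hη
  obtain ⟨N2, hN2⟩ := ratio_params_tw η hη hη2
  refine ⟨max (max N1 N2) 1, fun n hn V φ w D hw hwD A hA ρ hρ l hl => ?_⟩
  have hn1 : N1 ≤ n := ((le_max_left _ _).trans (le_max_left _ _)).trans hn
  have hn2 : N2 ≤ n := ((le_max_right _ _).trans (le_max_left _ _)).trans hn
  have hn4 : 1 ≤ n := (le_max_right _ _).trans hn
  have hn4' : (1 : ℝ) ≤ n := by exact_mod_cast hn4
  obtain ⟨t, k, ht, hk, h1, h2⟩ := hN2 n hn2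
  have h4 := rpow_seven (a := 1 + η) hn4 hwD
  have h5 : 1 + η + 7 * (η / 8) = 1 + 15 / 8 * η := by ring
  rw [h5] at h4
  obtain ⟨B, hB0, hBk, key⟩ := hN1 n t k w D hn1 ht hk hw (one_le_of_provesRatio hl)
    (h4.trans h2)
  obtain ⟨hl, a, ha, hca⟩ := hl
  have hδ1 : (n : ℝ) ^ (η - 1 / 2) ≤ 1 :=
    Real.rpow_le_one_of_one_le_of_nonpos hn4' (by linarith)
  have hmem : ∀ G ∈ pmGraphs n, G.map φ ∈ matched φ := by
    intro G hG
    refine ⟨fun i => ?_, fun u v huv => ?_⟩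
    · rw [SimpleGraph.map_adj]
      exact ⟨_, _, hG i, rfl, rfl⟩
    · rw [SimpleGraph.map_adj] at huv
      obtain ⟨u', v', -, hu, -⟩ := huv
      exact Or.inl ⟨u', hu⟩
  let α : ↥(pmGraphs n) → ↥(matched φ) := fun G => ⟨G.1.map φ, hmem G.1 G.2⟩
  have hpull := Argument.pull (Γ := fun G : matched φ => G.1) (Γ' := fun G : pmGraphs n => G.1)
    (𝓒' := Set.univ) α φ (by
      intro x u v huv
      exact (SimpleGraph.map_adj _ _ _ _).1 huv) (fun _ _ => Set.mem_univ _) hl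
  have hlen : (l.map fun b => b.image (pullC α φ)).length = l.length := List.length_map _
  rw [← hlen]
  refine key _ _ _ (fun β => ⟨twG β, twG_mem _⟩) (fun _ => rfl)
    (fun _ _ => Set.mem_univ _) _ hpull ⟨_, List.mem_map.2 ⟨a, ha, rfl⟩, fun β T hT =>
      ⟨_, mem_image_of_mem _ hca, ?_⟩⟩
  intro hcon
  have hcon' : A ((twG β).map φ) ≤ ρ * (T.map φ).card := hcon
  rw [card_map] at hcon'
  obtain ⟨C, hC, hCA⟩ := hA _ (hmem _ (twG_mem β))
  have hC' : (C.preimage φ φ.injective.injOn).card ≤ C.card :=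
    Finset.card_le_card_of_injOn φ (fun e he => Finset.mem_preimage.1 he) φ.injective.injOn
  have g1 := card_cover_twG β (C.preimage φ φ.injective.injOn) (by
      intro u v huv
      have huv' : ((twG β).map φ).Adj (φ u) (φ v) :=
        (SimpleGraph.map_adj _ _ _ _).2 ⟨u, v, huv, rfl, rfl⟩
      rcases hC _ _ huv' with g | g
      · exact Or.inl (Finset.mem_preimage.2 g)
      · exact Or.inr (Finset.mem_preimage.2 g))
  have g2 : (2 * n : ℝ) ≤ C.card + B := by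
    have : 2 * n ≤ C.card + B := g1.trans (Nat.add_le_add_right hC' B)
    exact_mod_cast this
  have g3 : (B : ℝ) ≤ k := by exact_mod_cast hBk
  have g4 : (T.card : ℝ) ≤ ((n + t : ℕ) : ℝ) := by exact_mod_cast hT
  have g5 : ρ * (T.card : ℝ) ≤ (2 - (n : ℝ) ^ (η - 1 / 2)) * ((n + t : ℕ) : ℝ) := by
    calc ρ * (T.card : ℝ) ≤ (2 - (n : ℝ) ^ (η - 1 / 2)) * T.card :=
          mul_le_mul_of_nonneg_right hρ (by positivity)
      _ ≤ _ := mul_le_mul_of_nonneg_left g4 (by linarith)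
  linarith

end H50TW
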