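import Pool.Agent.H50.TW.Round2
import Pool.Graph.R_seed8.H630VC.Final3

/-! # The samples of the twisted negative tests -/

open scoped Classical
open Finset H630VC

namespace H50TW

/-- one of the rounds was successful -/
def Act {m Q : ℕ} (x : Fin m → Fin Q) : Prop := ∃ j, (x j : ℕ) = 0

theorem card_act (m : ℕ) (hm : 1 ≤ m) :
    (univ.filter fun x : Fin m → Fin (2 * m) => Act x).card * 2 ≤ (2 * m) ^ m := by
  have h1 : (univ.filter fun x : Fin m → Fin (2 * m) => Act x) ⊆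
      (univ : Finset (Fin m)).biUnion fun j => Ev (fun _ : Fin m => 2 * m) {j} := by
    intro x hx
    obtain ⟨j, hj⟩ := (mem_filter.1 hx).2
    refine mem_biUnion.2 ⟨j, mem_univ _, ?_⟩
    simp only [Ev, mem_filter, mem_univ, true_and, mem_singleton, forall_eq]
    exact hj
  have h2 : ∀ j : Fin m, (Ev (fun _ : Fin m => 2 * m) {j}).card * (2 * m) = (2 * m) ^ m := by
    intro j
    have := card_Ev (fun _ : Fin m => 2 * m) (fun _ => by omega) {j}
    simpa using this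
  have h3 : (univ.filter fun x : Fin m → Fin (2 * m) => Act x).card * (2 * m) ≤
      m * (2 * m) ^ m := by
    calc _ ≤ (∑ j : Fin m, (Ev (fun _ : Fin m => 2 * m) {j}).card) * (2 * m) :=
          Nat.mul_le_mul_right _ ((card_le_card h1).trans card_biUnion_le)
      _ = ∑ j : Fin m, (Ev (fun _ : Fin m => 2 * m) {j}).card * (2 * m) := by rw [sum_mul]
      _ = ∑ _j : Fin m, (2 * m) ^ m := sum_congr rfl fun j _ => h2 j
      _ = m * (2 * m) ^ m := by rw [sum_const, card_univ, Fintype.card_fin, smul_eq_mul]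
  have h4 : m * ((univ.filter fun x : Fin m → Fin (2 * m) => Act x).card * 2) ≤
      m * (2 * m) ^ m := by
    calc _ = (univ.filter fun x : Fin m → Fin (2 * m) => Act x).card * (2 * m) := by ring
      _ ≤ _ := h3
  exact Nat.le_of_mul_le_mul_left h4 hm

theorem exists_perm (m : ℕ) (hm : 1 ≤ m) (c : Bool) :
    ∃ e : Equiv.Perm (Bool × (Fin m → Fin (2 * m))), ∀ p, Act p.2 → (e p).1 = c := by
  have h1 : Fintype.card {p : Bool × (Fin m → Fin (2 * m)) // Act p.2} ≤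
      Fintype.card {p : Bool × (Fin m → Fin (2 * m)) // p.1 = c} := by
    rw [Fintype.card_subtype, Fintype.card_subtype]
    have e1 : (univ.filter fun p : Bool × (Fin m → Fin (2 * m)) => Act p.2) =
        (univ : Finset Bool) ×ˢ (univ.filter fun x : Fin m → Fin (2 * m) => Act x) := by
      ext p
      rw [mem_filter, mem_product, mem_filter]
      exact ⟨fun h => ⟨mem_univ _, mem_univ _, h.2⟩, fun h => ⟨mem_univ _, h.2.2⟩⟩
    have e2 : (univ.filter fun p : Bool × (Fin m → Fin (2 * m)) => p.1 = c) =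
        ({c} : Finset Bool) ×ˢ (univ : Finset (Fin m → Fin (2 * m))) := by
      ext p
      rw [mem_filter, mem_product, mem_singleton]
      exact ⟨fun h => ⟨h.2, mem_univ _⟩, fun h => ⟨mem_univ _, h.1⟩⟩
    rw [e1, e2, card_product, card_product, card_singleton, card_univ, card_univ,
      Fintype.card_bool, Fintype.card_fun, Fintype.card_fin, Fintype.card_fin]
    have := card_act m hm
    omega
  obtain ⟨f⟩ := Function.Embedding.nonempty_of_card_le h1
  let g : {p : Bool × (Fin m → Fin (2 * m)) // Act p.2} → Bool × (Fin m → Fin (2 * m)) :=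
    fun x => (f x).1
  have hg : Function.Injective g := Subtype.val_injective.comp f.injective
  let e0 : {p : Bool × (Fin m → Fin (2 * m)) // Act p.2} ≃
      {y : Bool × (Fin m → Fin (2 * m)) // y ∈ Set.range g} := Equiv.ofInjective g hg
  refine ⟨e0.extendSubtype, fun p hp => ?_⟩
  rw [Equiv.extendSubtype_apply_of_mem e0 p hp]
  exact (f ⟨p, hp⟩).2

/-- the samples: a random side and a random dummy for each pair, and the marked pairs -/
abbrev Ot (ι : Type*) (m Q : ℕ) : Type _ := (ι → Bool × (Fin m → Fin (2 * m))) × Om ι m Q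

variable {ι : Type*} [Fintype ι]

/-- the chosen side of every pair, and both sides of the marked pairs -/
noncomputable def killed {m Q : ℕ} (ω : Ot ι m Q) : Finset (ι × Bool) :=
  univ.filter fun v => (ω.1 v.1).1 = v.2 ∨ v.1 ∈ marked ω.2

theorem mem_killed {m Q : ℕ} {ω : Ot ι m Q} {v : ι × Bool} :
    v ∈ killed ω ↔ (ω.1 v.1).1 = v.2 ∨ v.1 ∈ marked ω.2 := by
  simp [killed]

theorem killed_pair {m Q : ℕ} (ω : Ot ι m Q) (i : ι) :
    (i, false) ∈ killed ω ∨ (i, true) ∈ killed ω := by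
  rcases Bool.eq_false_or_eq_true (ω.1 i).1 with h | h
  · exact Or.inr (mem_killed.2 (Or.inl h))
  · exact Or.inl (mem_killed.2 (Or.inl h))

theorem card_killed {m Q : ℕ} (ω : Ot ι m Q) :
    (killed ω).card ≤ Fintype.card ι + (marked ω.2).card := by
  have h : killed ω ⊆ (univ.image fun i => (i, (ω.1 i).1)) ∪
      ((marked ω.2).image fun i => (i, !(ω.1 i).1)) := by
    intro v hv
    rw [mem_killed] at hv
    rw [mem_union, mem_image, mem_image]
    by_cases h1 : (ω.1 v.1).1 = v.2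
    · exact Or.inl ⟨v.1, mem_univ _, Prod.ext rfl h1⟩
    · refine Or.inr ⟨v.1, hv.resolve_left h1, Prod.ext rfl ?_⟩
      revert h1
      cases (ω.1 v.1).1 <;> cases v.2 <;> simp
  exact (card_le_card h).trans ((card_union_le _ _).trans
    (Nat.add_le_add (card_image_le.trans (le_of_eq card_univ)) card_image_le))

/-- the weights of the two kinds of items -/
abbrev qq (ι : Type*) (m Q : ℕ) : ι ⊕ ι → ℕ := Sum.elim (fun _ => 2 * m) (fun _ => Q)

theorem prod_qq (m Q : ℕ) :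
    ∏ v, qq ι m Q v = (2 * m) ^ Fintype.card ι * Q ^ Fintype.card ι := by
  rw [Fintype.prod_sum_type]
  simp [qq]

theorem card_Ot (m Q : ℕ) : Fintype.card (Ot ι m Q) =
    2 ^ Fintype.card ι * (∏ v, qq ι m Q v) ^ m := by
  rw [prod_qq]
  simp only [Fintype.card_prod, Fintype.card_fun, Fintype.card_bool, Fintype.card_fin]
  have e1 : ((2 * m) ^ m) ^ Fintype.card ι = ((2 * m) ^ Fintype.card ι) ^ m := by
    rw [← pow_mul (2 * m), ← pow_mul (2 * m), mul_comm m]
  rw [mul_pow 2 ((2 * m) ^ m), e1, mul_pow ((2 * m) ^ Fintype.card ι), mul_assoc]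

/-- from the samples to the samples of `all_rounds` -/
def unfoldS {m Q : ℕ} (ω : Ot ι m Q) : Fin m → (∀ w, Fin (qq ι m Q w)) := fun j w =>
  match w with
  | Sum.inl i => (ω.1 i).2 j
  | Sum.inr i => ω.2 j i

theorem unfoldS_inl {m Q : ℕ} (ω : Ot ι m Q) (j : Fin m) (i : ι) :
    ((unfoldS ω j (Sum.inl i) : Fin (qq ι m Q (Sum.inl i))) : ℕ) = ((ω.1 i).2 j : ℕ) := rfl

theorem unfoldS_inr {m Q : ℕ} (ω : Ot ι m Q) (j : Fin m) (i : ι) :
    ((unfoldS ω j (Sum.inr i) : Fin (qq ι m Q (Sum.inr i))) : ℕ) = (ω.2 j i : ℕ) := rfl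

theorem unfoldS_inj {m Q : ℕ} {ω ω' : Ot ι m Q} (h1 : ∀ i, (ω.1 i).1 = (ω'.1 i).1)
    (h2 : unfoldS ω = unfoldS ω') : ω = ω' := by
  have h3 : ∀ i j, (ω.1 i).2 j = (ω'.1 i).2 j := by
    intro i j
    apply Fin.ext
    rw [← unfoldS_inl, ← unfoldS_inl, h2]
  have h4 : ∀ i j, ω.2 j i = ω'.2 j i := by
    intro i j
    apply Fin.ext
    rw [← unfoldS_inr, ← unfoldS_inr, h2]
  exact Prod.ext (funext fun i => Prod.ext (h1 i) (funext fun j => h3 i j))
    (funext fun j => funext fun i => h4 i j)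

/-- the bad samples -/
noncomputable def badR {κ : Type*} (ι : Type*) [Fintype ι] (m Q : ℕ) (𝓖 : Finset κ)
    (R : κ → Finset (ι × Bool)) : Finset (Ot ι m Q) :=
  univ.filter fun ω => ∀ i ∈ 𝓖, ¬ R i ⊆ killed ω

theorem mem_badR {κ : Type*} {m Q : ℕ} {𝓖 : Finset κ} {R : κ → Finset (ι × Bool)}
    {ω : Ot ι m Q} : ω ∈ badR ι m Q 𝓖 R ↔ ∀ i ∈ 𝓖, ¬ R i ⊆ killed ω := by
  rw [badR, mem_filter]
  exact ⟨fun h => h.2, fun h => ⟨mem_univ _, h⟩⟩

/-- correct the sides of the pairs -/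
noncomputable def Psi {m : ℕ} (Q : ℕ) (e : ι → Equiv.Perm (Bool × (Fin m → Fin (2 * m)))) :
    Equiv.Perm (Ot ι m Q) :=
  Equiv.prodCongr (Equiv.piCongrRight e) (Equiv.refl _)

theorem badR_le {κ : Type*} (m Q : ℕ) (hm : 1 ≤ m) (𝓖 : Finset κ) (R : κ → Finset (ι × Bool))
    (S : κ → Finset (ι ⊕ ι)) (a : ι → Bool)
    (hRS : ∀ i ∈ 𝓖, ∀ v ∈ R i, Sum.inr v.1 ∈ S i ∨ (Sum.inl v.1 ∈ S i ∧ a v.1 = v.2)) :
    (badR ι m Q 𝓖 R).card ≤ 2 ^ Fintype.card ι * (badG (qq ι m Q) m 𝓖 S).card := by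
  choose e he using exists_perm m hm
  let Ψ : Equiv.Perm (Ot ι m Q) := Psi Q fun i => e (a i)
  have h1 : ((univ : Finset (Ot ι m Q)).filter fun ω => Ψ ω ∈ badR ι m Q 𝓖 R).card =
      (badR ι m Q 𝓖 R).card := by
    refine Finset.card_bij (fun ω _ => Ψ ω) ?_ ?_ ?_
    · intro ω hω
      exact (mem_filter.1 hω).2
    · intro ω _ ω' _ h
      exact Ψ.injective h
    · intro ω hω
      refine ⟨Ψ.symm ω, mem_filter.2 ⟨mem_univ _, ?_⟩, Ψ.apply_symm_apply ω⟩
      rw [Ψ.apply_symm_apply]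
      exact hω
  have h2 : ((univ : Finset (Ot ι m Q)).filter fun ω => Ψ ω ∈ badR ι m Q 𝓖 R).card ≤
      ((univ : Finset (ι → Bool)) ×ˢ (badG (qq ι m Q) m 𝓖 S)).card := by
    refine card_le_card_of_injOn (fun ω => (fun i => (ω.1 i).1, unfoldS ω)) ?_ ?_
    · intro ω hω
      have hω' := (mem_filter.1 (mem_coe.1 hω)).2
      refine mem_coe.2 (mem_product.2 ⟨mem_univ _, mem_badG.2 fun i hi hS => ?_⟩)
      refine (mem_filter.1 hω').2 i hi fun v hv => mem_killed.2 ?_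
      rcases hRS i hi v hv with h | ⟨h, h'⟩
      · right
        obtain ⟨j, hj⟩ := hS _ h
        exact mem_filter.2 ⟨mem_univ _, j, hj⟩
      · left
        obtain ⟨j, hj⟩ := hS _ h
        have h3 := he (a v.1) (ω.1 v.1) ⟨j, hj⟩
        exact h3.trans h'
    · intro ω _ ω' _ h
      exact unfoldS_inj (fun i => congrFun (congrArg Prod.fst h) i) (congrArg Prod.snd h)
  rw [card_product, card_univ, Fintype.card_fun, Fintype.card_bool] at h2
  rw [← h1]
  exact h2

theorem dominate {κ : Type*} (m Q l : ℕ) (hm : 1 ≤ m) (hQ : 1 ≤ Q) (hl : 1 ≤ l)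
    (𝓖 : Finset κ) (R : κ → Finset (ι × Bool)) (S : κ → Finset (ι ⊕ ι)) (a : ι → Bool)
    (hRS : ∀ i ∈ 𝓖, ∀ v ∈ R i, Sum.inr v.1 ∈ S i ∨ (Sum.inl v.1 ∈ S i ∧ a v.1 = v.2))
    (hne : 𝓖.Nonempty) (hcard : ∀ i ∈ 𝓖, (S i).card ≤ l)
    (hspread : Spread (qq ι m Q) l 𝓖 S) :
    (badR ι m Q 𝓖 R).card * 2 ^ m ≤ Fintype.card (Ot ι m Q) := by
  have hq : ∀ w, 1 ≤ qq ι m Q w := by
    rintro (i | i)
    · show 1 ≤ 2 * m
      omega
    · exact hQ
  have h2 := badR_le m Q hm 𝓖 R S a hRS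
  have h3 := badG_card (qq ι m Q) hq 𝓖 S l m hl hne hcard hspread
  rw [card_Ot]
  calc _ ≤ (2 ^ Fintype.card ι * (badG (qq ι m Q) m 𝓖 S).card) * 2 ^ m :=
        Nat.mul_le_mul_right _ h2
    _ = 2 ^ Fintype.card ι * ((badG (qq ι m Q) m 𝓖 S).card * 2 ^ m) := by ring
    _ ≤ _ := Nat.mul_le_mul_left _ h3

end H50TW
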